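import Mathlib

set_option autoImplicit false

/-! # The local motivic zeta function of a semi-quasihomogeneous ideal of finite colength -/

namespace Pool.Agent.NH97.MM

/-- Let the polynomials `f_j` have no terms of weighted degree `< d` for the weights `w_i = d / m_i`,
and let their weighted homogeneous components of degree `d` have no common zero outside the origin.
Then the order of the ideal `(f_j)` along every arc `x(t)`, `x(0) = 0`, is `min_i m_i ord x_i`: for the
minimum `λ` of the `ord x_i / w_i` the coefficients of `t ^ (d λ)` in the `f_j(x(t))` are the values of
these components at a point which is not the origin. So the set of the arcs along which the order is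
at least `e` is given by `ord x_i ≥ max (1, ⌈e / m_i⌉)`, and its volume is the following power of
`L`, if the arcs with the origin `0` have the volume `1`. -/
def semiVol {M : Type} [CommRing M] (L : Mˣ) {n : ℕ} (m : Fin n → ℕ) (e : ℕ) : M :=
  ((L⁻¹ ^ (∑ i, ((e + m i - 1) / m i - 1)) : Mˣ) : M)

/-- `∑_e μ(ord I = e) T^e` for such an ideal -/
noncomputable def semiSeries {M : Type} [CommRing M] (L : Mˣ) {n : ℕ} (m : Fin n → ℕ) :
    PowerSeries M :=
  PowerSeries.mk fun e => semiVol L m e - semiVol L m (e + 1)

end Pool.Agent.NH97.MM
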