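import Pool.Agent.NH97.MM.WRoot
import Pool.Agent.NH97.MM.SemiDef
import Pool.Agent.Y229.SP5

set_option autoImplicit false
set_option linter.unusedSectionVars false
set_option linter.unusedVariables false

/-! # The denominators of semi-quasihomogeneous ideals of finite colength -/

namespace Pool.Agent.NH97.MM

open MvPolynomial Pool.Agent.W574.MO Pool.Agent.W574.SM Pool.Agent.W574.LM Pool.Agent.W574.HS
  Pool.Agent.W574.RO Pool.Agent.W574.CN Pool.Agent.Y229

variable {M : Type} [CommRing M] {L : Mˣ}

/-- the volume of all arcs with the origin `0` is `1` -/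
theorem semiVol_zero {n : ℕ} (m : Fin n → ℕ) (hm : ∀ i, 1 ≤ m i) : semiVol L m 0 = 1 := by
  have h : (∑ i, ((0 + m i - 1) / m i - 1)) = 0 := by
    refine Finset.sum_eq_zero fun i _ => ?_
    have h1 : (0 + m i - 1) / m i = 0 := Nat.div_eq_of_lt (by have := hm i; omega)
    rw [h1, Nat.zero_sub]
  rw [semiVol, h, pow_zero, Units.val_one]

/-- the periodicity of the volumes -/
theorem semiVol_add {n : ℕ} (m w : Fin n → ℕ) (d : ℕ) (hwm : ∀ i, w i * m i = d) (hd : 0 < d)
    (e : ℕ) (he : 1 ≤ e) :
    semiVol L m (e + d) = ((L⁻¹ ^ (∑ i, w i) : Mˣ) : M) * semiVol L m e := by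
  have h : (∑ i, ((e + d + m i - 1) / m i - 1)) =
      (∑ i, w i) + ∑ i, ((e + m i - 1) / m i - 1) := by
    rw [← Finset.sum_add_distrib]
    refine Finset.sum_congr rfl fun i _ => ?_
    have hm : 0 < m i := Nat.pos_of_ne_zero fun h => by
      have := hwm i
      rw [h] at this
      omega
    have h1 : e + d + m i - 1 = (e + m i - 1) + m i * w i := by
      have := hwm i
      rw [mul_comm] at this
      omega
    rw [h1, Nat.add_mul_div_left _ _ hm]
    have h2 : 1 ≤ (e + m i - 1) / m i := by
      rw [Nat.le_div_iff_mul_le hm]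
      omega
    omega
  rw [semiVol, semiVol, h, pow_add, Units.val_mul]

/-- the volumes of `ord I ≥ e` -/
theorem tail_semi {n : ℕ} (m : Fin n → ℕ) (hm : ∀ i, 1 ≤ m i) :
    tail 1 (semiSeries L m) = PowerSeries.mk fun e => semiVol L m e := by
  ext e
  rw [coeff_tail, PowerSeries.coeff_mk]
  have h : ∀ e, (∑ k ∈ Finset.range e, PowerSeries.coeff k (semiSeries L m)) =
      1 - semiVol L m e := by
    intro e
    induction e with
    | zero => rw [Finset.range_zero, Finset.sum_empty, semiVol_zero m hm, sub_self]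
    | succ e ih =>
      rw [Finset.sum_range_succ, ih, semiSeries, PowerSeries.coeff_mk]
      ring
  rw [h]
  ring

theorem tail_semi_mem {n : ℕ} (m w : Fin n → ℕ) (d : ℕ) (hwm : ∀ i, w i * m i = d) (hd : 0 < d)
    (hw : 1 ≤ ∑ i, w i) (K : ℕ → ℕ → Prop) (hK : K d (∑ i, w i)) :
    tail 1 (semiSeries L m) ∈ DenRing L K := by
  classical
  have hm : ∀ i, 1 ≤ m i := fun i => Nat.pos_of_ne_zero fun h => by
    have := hwm i
    rw [h] at this
    omega
  rw [tail_semi m hm]
  set q : M := ((L⁻¹ ^ (∑ i, w i) : Mˣ) : M) with hq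
  set V : PowerSeries M := PowerSeries.mk fun e => semiVol L m e with hV
  set P : PowerSeries M := ∑ e ∈ Finset.range d,
    PowerSeries.C (semiVol L m (e + 1)) * PowerSeries.X ^ (e + 1) with hP
  have key : (V - 1) * (1 - PowerSeries.C q * PowerSeries.X ^ d) = P := by
    ext e
    have hc : PowerSeries.coeff e P = if 1 ≤ e ∧ e ≤ d then semiVol L m e else 0 := by
      rw [hP, map_sum]
      have h1 : ∀ k ∈ Finset.range d, PowerSeries.coeff e
          (PowerSeries.C (semiVol L m (k + 1)) * PowerSeries.X ^ (k + 1)) =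
          if k + 1 = e then semiVol L m e else 0 := by
        intro k _
        rw [PowerSeries.coeff_C_mul, PowerSeries.coeff_X_pow]
        by_cases h : e = k + 1
        · rw [if_pos h, if_pos h.symm, mul_one, h]
        · rw [if_neg h, if_neg (fun h' => h h'.symm), mul_zero]
      rw [Finset.sum_congr rfl h1]
      by_cases h : 1 ≤ e ∧ e ≤ d
      · rw [if_pos h, Finset.sum_eq_single (e - 1)]
        · rw [if_pos (by omega)]
        · intro k _ hk
          rw [if_neg (by omega)]
        · intro hk
          exact absurd (Finset.mem_range.2 (by omega)) hk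
      · rw [if_neg h]
        refine Finset.sum_eq_zero fun k hk => ?_
        rw [Finset.mem_range] at hk
        rw [if_neg (by omega)]
    have hv1 : ∀ e, PowerSeries.coeff e (V - 1) = if e = 0 then 0 else semiVol L m e := by
      intro e
      rw [map_sub, hV, PowerSeries.coeff_mk, PowerSeries.coeff_one]
      by_cases h : e = 0
      · rw [if_pos h, if_pos h, h, semiVol_zero m hm, sub_self]
      · rw [if_neg h, if_neg h, sub_zero]
    rw [hc, mul_sub, mul_one, map_sub, hv1, ← mul_assoc, mul_comm (V - 1) (PowerSeries.C q),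
      mul_assoc, PowerSeries.coeff_C_mul, PowerSeries.coeff_mul_X_pow']
    by_cases h0 : e = 0
    · subst h0
      rw [if_pos rfl, if_neg (show ¬ d ≤ 0 by omega), if_neg (show ¬ (1 ≤ 0 ∧ 0 ≤ d) by omega)]
      ring
    · rw [if_neg h0]
      by_cases h1 : e ≤ d
      · rw [if_pos (show 1 ≤ e ∧ e ≤ d from ⟨by omega, h1⟩)]
        by_cases h2 : d ≤ e
        · have h3 : e - d = 0 := by omega
          rw [if_pos h2, hv1, if_pos h3]
          ring
        · rw [if_neg h2]
          ring
      · have h3 : e - d ≠ 0 := by omega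
        rw [if_pos (show d ≤ e by omega), hv1, if_neg h3,
          if_neg (show ¬ (1 ≤ e ∧ e ≤ d) by omega)]
        have h4 := semiVol_add (L := L) m w d hwm hd (e - d) (by omega)
        have h5 : e - d + d = e := by omega
        rw [h5] at h4
        rw [h4]
        ring
  have hgeo : (1 - PowerSeries.C q * PowerSeries.X ^ d) * geo L d (∑ i, w i) = 1 :=
    geo_mul L hd _
  have hVe : V = 1 + P * geo L d (∑ i, w i) := by
    rw [← key, mul_assoc, hgeo]
    ring
  rw [hVe]
  refine (DenRing L K).add_mem (DenRing L K).one_mem ((DenRing L K).mul_mem ?_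
    (geo_mem hd hw hK))
  exact Subring.sum_mem _ fun e _ => (DenRing L K).mul_mem (C_mem _)
    ((DenRing L K).pow_mem X_mem _)

/-- **Semi-quasihomogeneous ideals of finite colength.** -/
theorem semi_main {n r : ℕ} (f : Fin r → MvPolynomial (Fin (n + 1)) ℂ) (w m : Fin (n + 1) → ℕ)
    (d : ℕ) (hd : 0 < d) (hwm : ∀ i, w i * m i = d)
    (hf : ∀ j, ∀ k < d, weightedHomogeneousComponent w k (f j) = 0)
    (e : Fin (n + 1) → Fin r)
    (he : (Matrix.of fun s t => pderiv s (weightedHomogeneousComponent w d (f (e t)))).det ≠ 0) :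
    (∃ j, f j ≠ 0) ∧ tail 1 (semiSeries L m) ∈ DenRing L (KS f 0) := by
  classical
  have hw : ∀ i, 1 ≤ w i := fun i => Nat.pos_of_ne_zero fun h => by
    have := hwm i
    rw [h, zero_mul] at this
    omega
  have hne : ∃ j, f j ≠ 0 := by
    obtain ⟨j, hj⟩ := det_exists (fun j => weightedHomogeneousComponent w d (f j)) e he
    exact ⟨j, fun h => hj (by rw [h, map_zero])⟩
  have hS : KS f 0 d (∑ i, w i) := by
    refine sf_of_local f 0 _ (fun H b hb hH => ?_) (exists_fe f hne)
    exact semi_root f w hw d hd hf b H hb hH e he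
  have hsum : 1 ≤ ∑ i, w i := (hw 0).trans
    (Finset.single_le_sum (f := w) (fun i _ => Nat.zero_le _) (Finset.mem_univ 0))
  exact ⟨hne, tail_semi_mem m w d hwm hd hsum _ hS⟩

end Pool.Agent.NH97.MM
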