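import Pool.Agent.NH97.MM.Root

set_option autoImplicit false
set_option linter.unusedSectionVars false
set_option linter.unusedVariables false

/-! # The root `-(∑ w_i) / d` for an ideal with algebraically independent weighted initial forms -/

namespace Pool.Agent.NH97.MM

open Pool.Agent.W574.SM Pool.Agent.W574.CN Pool.Agent.W574.LM

section Gen

variable {n : ℕ} {ι : Type} [Fintype ι] [DecidableEq ι]

theorem aeval_mul_whomog {σ S : Type} [CommRing S] [Algebra ℂ S] (w : σ → ℕ) (a : σ → S) (r : S)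
    (q : MvPolynomial σ ℂ) (d : ℕ) (hq : q.IsWeightedHomogeneous w d) :
    MvPolynomial.aeval (fun i => r ^ w i * a i) q = r ^ d * MvPolynomial.aeval a q := by
  rw [MvPolynomial.aeval_def, MvPolynomial.aeval_def, MvPolynomial.eval₂_eq,
    MvPolynomial.eval₂_eq, Finset.mul_sum]
  refine Finset.sum_congr rfl fun m hm => ?_
  have h1 : Finsupp.weight w m = d := hq (MvPolynomial.mem_support_iff.1 hm)
  have h2 : ∏ i ∈ m.support, (r ^ w i * a i) ^ m i = r ^ d * ∏ i ∈ m.support, a i ^ m i := by
    simp only [mul_pow, Finset.prod_mul_distrib, ← pow_mul]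
    rw [Finset.prod_pow_eq_pow_sum, ← h1, Finsupp.weight_apply, Finsupp.sum]
    congr 2
    refine Finset.sum_congr rfl fun i _ => ?_
    rw [smul_eq_mul, mul_comm]
  rw [h2]
  ring

theorem dvd_aeval_of_worder (w : Fin (n + 1) → ℕ) (p : Fin (n + 1) → ℂ) (m : ℕ)
    (q : MvPolynomial (Fin (n + 1)) ℂ)
    (hq : ∀ k < m, MvPolynomial.weightedHomogeneousComponent w k q = 0) :
    (MvPowerSeries.X 0 : MvPowerSeries (Fin (n + 1)) ℂ) ^ m ∣
      MvPolynomial.aeval (fun t => (MvPowerSeries.X 0 : MvPowerSeries (Fin (n + 1)) ℂ) ^ w t *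
        pt p t) q := by
  classical
  rw [MvPolynomial.aeval_def, MvPolynomial.eval₂_eq]
  refine Finset.dvd_sum fun u hu => ?_
  by_cases hk : Finsupp.weight w u < m
  · exfalso
    have h1 := congrArg (MvPolynomial.coeff u) (hq _ hk)
    rw [MvPolynomial.coeff_weightedHomogeneousComponent, if_pos rfl, MvPolynomial.coeff_zero] at h1
    exact MvPolynomial.mem_support_iff.1 hu h1
  · have h2 : ∏ i ∈ u.support, ((MvPowerSeries.X 0 : MvPowerSeries (Fin (n + 1)) ℂ) ^ w i *
        pt p i) ^ u i = MvPowerSeries.X 0 ^ (Finsupp.weight w u) *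
          ∏ i ∈ u.support, pt p i ^ u i := by
      simp only [mul_pow, Finset.prod_mul_distrib, ← pow_mul]
      rw [Finset.prod_pow_eq_pow_sum, Finsupp.weight_apply, Finsupp.sum]
      congr 2
      refine Finset.sum_congr rfl fun i _ => ?_
      rw [smul_eq_mul, mul_comm]
    rw [h2]
    exact dvd_mul_of_dvd_right (dvd_mul_of_dvd_left (pow_dvd_pow _ (by omega)) _) _

/-- the Jacobian determinant of the weighted blow-up -/
theorem det_wcone (w : Fin (n + 1) → ℕ) (hw : ∀ i, 1 ≤ w i) (p : Fin (n + 1) → ℂ) :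
    (Matrix.of fun t i => MvPowerSeries.pderiv ℂ t
      ((MvPowerSeries.X 0 : MvPowerSeries (Fin (n + 1)) ℂ) ^ w i * pt p i)).det
      = MvPowerSeries.X 0 ^ (∑ i, w i - 1) * MvPowerSeries.C ((w 0 : ℂ) * p 0) := by
  have hX : ∀ (t : Fin (n + 1)) (k : ℕ), MvPowerSeries.pderiv ℂ t
      ((MvPowerSeries.X 0 : MvPowerSeries (Fin (n + 1)) ℂ) ^ k) =
      if t = 0 then (k : MvPowerSeries (Fin (n + 1)) ℂ) * MvPowerSeries.X 0 ^ (k - 1) else 0 := by
    intro t k
    rw [Derivation.leibniz_pow]
    by_cases ht : t = 0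
    · rw [if_pos ht, ht, MvPowerSeries.pderiv_X_self, smul_eq_mul, mul_one, nsmul_eq_mul]
    · rw [if_neg ht, MvPowerSeries.pderiv_X_of_ne (Ne.symm ht), smul_zero, smul_zero]
  have hent : ∀ t i, MvPowerSeries.pderiv ℂ t
      ((MvPowerSeries.X 0 : MvPowerSeries (Fin (n + 1)) ℂ) ^ w i * pt p i) =
      (if t = 0 then (w i : MvPowerSeries (Fin (n + 1)) ℂ) * MvPowerSeries.X 0 ^ (w i - 1) * pt p i
        else 0) + MvPowerSeries.X 0 ^ w i * (if i = 0 then 0 else if t = i then 1 else 0) := by
    intro t i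
    rw [Derivation.leibniz, smul_eq_mul, smul_eq_mul, pderiv_pt, hX]
    by_cases ht : t = 0
    · rw [if_pos ht, if_pos ht]; ring
    · rw [if_neg ht, if_neg ht]; ring
  have hdiag : ∀ t, MvPowerSeries.pderiv ℂ t
      ((MvPowerSeries.X 0 : MvPowerSeries (Fin (n + 1)) ℂ) ^ w t * pt p t) =
      if t = 0 then MvPowerSeries.X 0 ^ (w 0 - 1) * MvPowerSeries.C ((w 0 : ℂ) * p 0)
        else MvPowerSeries.X 0 ^ w t := by
    intro t
    rw [hent]
    by_cases ht : t = 0
    · subst ht
      rw [if_pos rfl, if_pos rfl, if_pos rfl, mul_zero, add_zero, pt, if_pos rfl, add_zero,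
        map_mul, map_natCast]
      ring
    · rw [if_neg ht, if_neg ht, if_neg ht, if_pos rfl, mul_one, zero_add]
  rw [Matrix.det_of_isUpperTriangular]
  · change ∏ t, MvPowerSeries.pderiv ℂ t
      ((MvPowerSeries.X 0 : MvPowerSeries (Fin (n + 1)) ℂ) ^ w t * pt p t) = _
    rw [Finset.prod_congr rfl fun t _ => hdiag t, Fin.prod_univ_succ, if_pos rfl,
      Finset.prod_congr rfl (g := fun t : Fin n => MvPowerSeries.X 0 ^ w t.succ)]
    · rw [Finset.prod_pow_eq_pow_sum]
      have h1 : ∑ i, w i - 1 = (w 0 - 1) + ∑ t : Fin n, w t.succ := by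
        rw [Fin.sum_univ_succ]
        have := hw 0
        omega
      rw [h1, pow_add]
      ring
    · intro t _
      rw [if_neg (Fin.succ_ne_zero t)]
  · intro t i hti
    simp only [id] at hti
    rw [Matrix.of_apply, hent, if_neg (fun h => by rw [h] at hti; exact absurd hti (Fin.not_lt_zero i)),
      zero_add]
    by_cases hi : i = 0
    · rw [if_pos hi, mul_zero]
    · rw [if_neg hi, if_neg (fun h => by rw [h] at hti; exact lt_irrefl _ hti), mul_zero]

/-- The matrix of the derivatives of the quotients is invertible. -/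
theorem det_wquot (w : Fin (n + 1) → ℕ) (hw : ∀ i, 1 ≤ w i) (d : ℕ)
    (g : Fin (n + 1) → MvPolynomial (Fin (n + 1)) ℂ)
    (hg : ∀ t, (g t).IsWeightedHomogeneous w d) (p : Fin (n + 1) → ℂ) (hp0 : p 0 ≠ 0)
    (hdet : (Matrix.of fun s t => MvPolynomial.eval p (MvPolynomial.pderiv s (g t))).det ≠ 0)
    (W0 : Matrix (Fin (n + 1)) (Fin (n + 1)) ℂ) (hW00 : ∀ s, W0 s 0 = if s = 0 then 1 else 0)
    (hW01 : ∀ s t, t ≠ 0 → s ≠ 0 → W0 s t * MvPolynomial.eval p (g 0) ^ 2 =
      MvPolynomial.eval p (MvPolynomial.pderiv s (g t)) * MvPolynomial.eval p (g 0) -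
        MvPolynomial.eval p (g t) * MvPolynomial.eval p (MvPolynomial.pderiv s (g 0)))
    (hg0 : MvPolynomial.eval p (g 0) ≠ 0) : W0.det ≠ 0 := by
  classical
  obtain ⟨W, hWd, hW0, hW1, hW2⟩ : ∃ W : Matrix (Fin (n + 1)) (Fin (n + 1)) ℂ,
      W0.det = W.det ∧ (∀ s, W s 0 = if s = 0 then 1 else 0) ∧
      (∀ s t, t ≠ 0 → s ≠ 0 → W s t * MvPolynomial.eval p (g 0) ^ 2 =
        MvPolynomial.eval p (MvPolynomial.pderiv s (g t)) * MvPolynomial.eval p (g 0) -
          MvPolynomial.eval p (g t) * MvPolynomial.eval p (MvPolynomial.pderiv s (g 0))) ∧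
      ∀ t, t ≠ 0 → W 0 t = 0 := by
    refine ⟨Matrix.of fun s t => if s = 0 then (if t = 0 then 1 else 0) else W0 s t, ?_, ?_, ?_, ?_⟩
    · rw [Matrix.det_succ_column_zero, Matrix.det_succ_column_zero]
      refine Finset.sum_congr rfl fun i _ => ?_
      by_cases hi : i = 0
      · subst hi
        have e1 : (Matrix.of fun s t => if s = 0 then (if t = 0 then (1 : ℂ) else 0) else
            W0 s t) 0 0 = W0 0 0 := by rw [hW00, if_pos rfl]; simp
        have e2 : W0.submatrix (Fin.succAbove 0) Fin.succ =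
            (Matrix.of fun s t => if s = 0 then (if t = 0 then (1 : ℂ) else 0) else
              W0 s t).submatrix (Fin.succAbove 0) Fin.succ := by
          ext s t
          rw [Matrix.submatrix_apply, Matrix.submatrix_apply, Matrix.of_apply,
            if_neg (Fin.succAbove_ne 0 s)]
        rw [e1, e2]
      · have e1 : W0 i 0 = 0 := by rw [hW00, if_neg hi]
        rw [Matrix.of_apply, if_neg hi, e1]
        ring
    · intro s
      rw [Matrix.of_apply]
      by_cases hs : s = 0
      · rw [if_pos hs, if_pos rfl, if_pos hs]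
      · rw [if_neg hs, hW00]
    · intro s t ht hs
      rw [Matrix.of_apply, if_neg hs]
      exact hW01 s t ht hs
    · intro t ht
      rw [Matrix.of_apply, if_pos rfl, if_neg ht]
  rw [hWd]
  intro hdW
  obtain ⟨a, ha, ha2⟩ := Matrix.exists_mulVec_eq_zero_iff.2 hdW
  have hrow : ∀ s, ∑ t, W s t * a t = 0 := fun s => congrFun ha2 s
  have ha0 : a 0 = 0 := by
    have h1 := hrow 0
    rw [Fin.sum_univ_succ, hW0, if_pos rfl, one_mul, Finset.sum_eq_zero, add_zero] at h1
    · exact h1
    · intro t _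
      rw [hW2 _ (Fin.succ_ne_zero t), zero_mul]
  apply hdet
  rw [← Matrix.exists_mulVec_eq_zero_iff]
  set G := fun t => MvPolynomial.eval p (g t) with hG
  set M := fun s t => MvPolynomial.eval p (MvPolynomial.pderiv s (g t)) with hM
  set c : Fin (n + 1) → ℂ := Fin.cons (-∑ t : Fin n, a t.succ * G t.succ)
    (fun t => a t.succ * G 0) with hc
  have hc0 : c 0 = -∑ t : Fin n, a t.succ * G t.succ := rfl
  have hcs : ∀ t : Fin n, c t.succ = a t.succ * G 0 := fun t => rfl
  set wp : Fin (n + 1) → ℂ := fun s => (w s : ℂ) * p s with hwp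
  have hwp0 : wp 0 ≠ 0 := mul_ne_zero (Nat.cast_ne_zero.2 (by have := hw 0; omega)) hp0
  have heul : ∀ t, ∑ s, wp s * M s t = d * G t := by
    intro t
    have h1 := congrArg (MvPolynomial.eval p) (hg t).sum_weight_X_mul_pderiv
    rw [map_sum, map_nsmul, nsmul_eq_mul] at h1
    rw [← h1]
    refine Finset.sum_congr rfl fun s _ => ?_
    rw [map_nsmul, map_mul, MvPolynomial.eval_X, nsmul_eq_mul, hwp]
    ring
  have hs1 : ∀ s, s ≠ 0 → ∑ t, M s t * c t = 0 := by
    intro s hs
    have h1 := hrow s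
    rw [Fin.sum_univ_succ, ha0, mul_zero, zero_add] at h1
    rw [Fin.sum_univ_succ, hc0]
    simp only [hcs]
    have h2 : (G 0) ^ 2 * ∑ t : Fin n, W s t.succ * a t.succ = 0 := by rw [h1, mul_zero]
    rw [Finset.mul_sum] at h2
    have h3 : ∀ t : Fin n, (G 0) ^ 2 * (W s t.succ * a t.succ) =
        M s t.succ * (a t.succ * G 0) - M s 0 * (a t.succ * G t.succ) := by
      intro t
      have := hW1 s t.succ (Fin.succ_ne_zero t) hs
      linear_combination a t.succ * this
    rw [Finset.sum_congr rfl fun t _ => h3 t, Finset.sum_sub_distrib, ← Finset.mul_sum] at h2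
    linear_combination h2
  have hval : ∑ t, G t * c t = 0 := by
    rw [Fin.sum_univ_succ, hc0]
    simp only [hcs]
    rw [mul_neg, Finset.mul_sum, ← Finset.sum_neg_distrib, ← Finset.sum_add_distrib]
    refine Finset.sum_eq_zero fun t _ => ?_
    ring
  have hs0 : ∑ t, M 0 t * c t = 0 := by
    have h1 : ∑ s, wp s * ∑ t, M s t * c t = 0 := by
      have h2 : ∑ s, wp s * ∑ t, M s t * c t = ∑ t, (∑ s, wp s * M s t) * c t := by
        simp only [Finset.mul_sum, Finset.sum_mul]
        rw [Finset.sum_comm]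
        refine Finset.sum_congr rfl fun t _ => Finset.sum_congr rfl fun s _ => ?_
        ring
      rw [h2]
      simp only [heul, mul_assoc]
      rw [← Finset.mul_sum, hval, mul_zero]
    have h5 : ∑ s : Fin n, wp s.succ * ∑ t, M s.succ t * c t = 0 := by
      refine Finset.sum_eq_zero fun s _ => ?_
      rw [hs1 _ (Fin.succ_ne_zero s), mul_zero]
    rw [Fin.sum_univ_succ, h5, add_zero] at h1
    exact (mul_eq_zero.1 h1).resolve_left hwp0
  refine ⟨c, ?_, ?_⟩
  · intro hc1
    apply ha
    funext t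
    refine Fin.cases ha0 (fun t => ?_) t
    have := congrFun hc1 t.succ
    rw [hcs] at this
    exact (mul_eq_zero.1 this).resolve_right hg0
  · funext s
    by_cases hs : s = 0
    · subst hs; exact hs0
    · exact hs1 s hs

theorem semi_root_aux (f : ι → MvPolynomial (Fin (n + 1)) ℂ) (v : Fin (n + 1) → ℕ)
    (hv : ∀ i, 1 ≤ v i) (d : ℕ) (hd : 0 < d)
    (hf : ∀ j, ∀ k < d, MvPolynomial.weightedHomogeneousComponent v k (f j) = 0)
    (b : Polynomial ℂ) (H : MvPolynomial (Fin (n + 1)) ℂ) (hb : IsLocEq H f b)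
    (hH : MvPolynomial.eval 0 H ≠ 0)
    (e : Fin (n + 1) → ι) (p : Fin (n + 1) → ℂ) (hp0 : p 0 ≠ 0)
    (hdet : (Matrix.of fun s t => MvPolynomial.eval p (MvPolynomial.pderiv s
      (MvPolynomial.weightedHomogeneousComponent v d (f (e t))))).det ≠ 0)
    (hg0 : MvPolynomial.eval p (MvPolynomial.weightedHomogeneousComponent v d (f (e 0))) ≠ 0) :
    b.eval (-((∑ i, v i : ℕ) : ℂ) / d) = 0 := by
  classical
  set A := pt p with hA
  set F : ι → MvPolynomial (Fin (n + 1)) ℂ := fun j =>
    MvPolynomial.weightedHomogeneousComponent v d (f j) with hF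
  have hFh : ∀ j, (F j).IsWeightedHomogeneous v d := fun j =>
    MvPolynomial.weightedHomogeneousComponent_isWeightedHomogeneous d _
  set ζ : Fin (n + 1) → MvPowerSeries (Fin (n + 1)) ℂ :=
    fun t => MvPowerSeries.X 0 ^ v t * A t with hζ
  have hrest : ∀ j, ∃ R : MvPowerSeries (Fin (n + 1)) ℂ,
      MvPolynomial.aeval ζ (f j - F j) = MvPowerSeries.X 0 ^ (d + 1) * R := by
    intro j
    refine dvd_aeval_of_worder v p (d + 1) (f j - F j) fun k hk => ?_
    rw [map_sub, hF]
    simp only
    rcases Nat.lt_succ_iff_lt_or_eq.1 hk with h | h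
    · rw [hf j k h, MvPolynomial.weightedHomogeneousComponent_of_mem
        (MvPolynomial.weightedHomogeneousComponent_isWeightedHomogeneous d _), if_neg (by omega),
        sub_zero]
    · rw [h, MvPolynomial.weightedHomogeneousComponent_of_mem
        (MvPolynomial.weightedHomogeneousComponent_isWeightedHomogeneous d _), if_pos rfl, sub_self]
  choose R hR using hrest
  set g : ι → MvPowerSeries (Fin (n + 1)) ℂ := fun j =>
    MvPolynomial.aeval A (F j) + MvPowerSeries.X 0 * R j with hg
  have hζa : ∀ j, MvPolynomial.aeval ζ (f j) = MvPowerSeries.X 0 ^ d * g j := by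
    intro j
    have h1 : f j = F j + (f j - F j) := by ring
    rw [h1, map_add, hR, aeval_mul_whomog v A (MvPowerSeries.X 0) (F j) d (hFh j), hg]
    ring
  have hgc : ∀ j, MvPowerSeries.constantCoeff (g j) = MvPolynomial.eval p (F j) := by
    intro j
    rw [hg]
    simp only
    rw [map_add, map_mul, MvPowerSeries.constantCoeff_X, zero_mul, add_zero, constCoeff_aeval, hA,
      cc_pt]
  have hgd : ∀ (s : Fin (n + 1)) j, s ≠ 0 →
      MvPowerSeries.constantCoeff (MvPowerSeries.pderiv ℂ s (g j)) =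
        MvPolynomial.eval p (MvPolynomial.pderiv s (F j)) := by
    intro s j hs
    rw [hg]
    simp only
    rw [map_add, Derivation.leibniz, MvPowerSeries.pderiv_X_of_ne (Ne.symm hs), smul_zero,
      add_zero, map_add, smul_eq_mul, map_mul, MvPowerSeries.constantCoeff_X, zero_mul, add_zero,
      pderiv_aeval, hA]
    simp only [pderiv_pt]
    rw [Finset.sum_eq_single s]
    · rw [if_neg hs, if_pos rfl, mul_one, constCoeff_aeval, cc_pt]
    · intro t _ hts
      by_cases ht : t = 0
      · rw [if_pos ht, mul_zero]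
      · rw [if_neg ht, if_neg (Ne.symm hts), mul_zero]
    · intro h; exact absurd (Finset.mem_univ s) h
  set U1 := g (e 0) with hU1
  have hU1c : MvPowerSeries.constantCoeff U1 ≠ 0 := by rw [hU1, hgc]; exact hg0
  have hU1i : U1⁻¹ * U1 = 1 := MvPowerSeries.inv_mul_cancel U1 hU1c
  set lam : Fin (n + 1) → ℂ := fun t =>
    MvPolynomial.eval p (F (e t)) / MvPolynomial.eval p (F (e 0)) with hlam
  set N : Fin (n + 1) → MvPowerSeries (Fin (n + 1)) ℂ := fun t => g (e t) - lam t • U1 with hN
  have hNc : ∀ t, MvPowerSeries.constantCoeff (N t) = 0 := by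
    intro t
    rw [hN]
    simp only
    rw [map_sub, hU1, hgc, MvPowerSeries.smul_eq_C_mul, map_mul, MvPowerSeries.constantCoeff_C,
      hgc, hlam]
    simp only
    rw [div_mul_cancel₀ _ hg0, sub_self]
  set w : Fin (n + 1) → MvPowerSeries (Fin (n + 1)) ℂ := fun t =>
    if t = 0 then MvPowerSeries.X 0 else N t * U1⁻¹ with hw
  have hw0 : w 0 = MvPowerSeries.X 0 := if_pos rfl
  have hw1 : ∀ t, t ≠ 0 → w t = N t * U1⁻¹ := by
    intro t ht
    rw [hw]; simp only; rw [if_neg ht]
  have hwU : ∀ t, t ≠ 0 → U1 * w t = N t := by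
    intro t ht
    rw [hw1 t ht]
    linear_combination N t * hU1i
  have hwc : ∀ t, MvPowerSeries.constantCoeff (w t) = 0 := by
    intro t
    by_cases ht : t = 0
    · rw [ht, hw0, MvPowerSeries.constantCoeff_X]
    · rw [hw1 t ht, map_mul, hNc, zero_mul]
  have hwd : ∀ s t, t ≠ 0 → MvPolynomial.eval p (F (e 0)) *
      MvPowerSeries.constantCoeff (MvPowerSeries.pderiv ℂ s (w t)) =
      MvPowerSeries.constantCoeff (MvPowerSeries.pderiv ℂ s (N t)) := by
    intro s t ht
    have h1 : MvPowerSeries.constantCoeff (MvPowerSeries.pderiv ℂ s (U1 * w t)) =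
        MvPowerSeries.constantCoeff (MvPowerSeries.pderiv ℂ s (N t)) := by rw [hwU t ht]
    rw [Derivation.leibniz, smul_eq_mul, smul_eq_mul, map_add, map_mul
      MvPowerSeries.constantCoeff, map_mul MvPowerSeries.constantCoeff, hwc, zero_mul, add_zero,
      hU1, hgc] at h1
    exact h1
  have hHc : MvPowerSeries.constantCoeff (MvPolynomial.aeval ζ H) ≠ 0 := by
    rw [constCoeff_aeval]
    have h1 : (fun i => MvPowerSeries.constantCoeff (ζ i)) = 0 := by
      funext i
      rw [hζ]
      simp only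
      rw [map_mul, map_pow, MvPowerSeries.constantCoeff_X, zero_pow (by have := hv i; omega),
        zero_mul]
      rfl
    rw [h1]
    exact hH
  have hres := rees_coordsL f b H hb 0 ζ hHc (∑ i, v i - 1) d 0 hd
    (MvPowerSeries.C ((v 0 : ℂ) * p 0)) U1 1
    (by
      rw [MvPowerSeries.constantCoeff_C]
      exact mul_ne_zero (Nat.cast_ne_zero.2 (by have := hv 0; omega)) hp0) hU1c (by simp) (det_wcone v hv p) (e 0)
    (fun j => ⟨g j, hζa j⟩) (hζa _) 1 (by simp) w hw0 hwc (by
      refine det_wquot v hv d (fun t => F (e t)) (fun t => hFh _) p hp0 hdet _ ?_ ?_ hg0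
      · intro s
        rw [Matrix.of_apply, hw0]
        by_cases hs : s = 0
        · rw [if_pos hs, hs, MvPowerSeries.pderiv_X_self, map_one]
        · rw [if_neg hs, MvPowerSeries.pderiv_X_of_ne (Ne.symm hs), map_zero]
      · intro s t ht hs
        rw [Matrix.of_apply]
        have h1 := hwd s t ht
        have h2 : MvPowerSeries.constantCoeff (MvPowerSeries.pderiv ℂ s (N t)) =
            MvPolynomial.eval p (MvPolynomial.pderiv s (F (e t))) -
              lam t * MvPolynomial.eval p (MvPolynomial.pderiv s (F (e 0))) := by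
          rw [hN]
          simp only
          rw [map_sub, Derivation.map_smul, hU1, map_sub, hgd s _ hs,
            MvPowerSeries.smul_eq_C_mul, map_mul MvPowerSeries.constantCoeff,
            MvPowerSeries.constantCoeff_C, hgd s _ hs]
        rw [h2] at h1
        have h3 : lam t * MvPolynomial.eval p (F (e 0)) = MvPolynomial.eval p (F (e t)) := by
          rw [hlam]
          simp only
          rw [div_mul_cancel₀ _ hg0]
        linear_combination MvPolynomial.eval p (F (e 0)) * h1 -
          MvPolynomial.eval p (MvPolynomial.pderiv s (F (e 0))) * h3) (by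
      intro t ht
      right
      refine ⟨Pi.single (e t) 1 - lam t • Pi.single (e 0) 1, ?_⟩
      have h1 : ∀ (h : ι → MvPowerSeries (Fin (n + 1)) ℂ) (i j : ι) (c : ℂ),
          ∑ k, ((Pi.single i 1 : ι → ℂ) - c • (Pi.single j 1 : ι → ℂ)) k • h k
            = h i - c • h j := by
        intro h i j c
        simp only [Pi.sub_apply, Pi.smul_apply, sub_smul, Finset.sum_sub_distrib]
        congr 1
        · rw [Finset.sum_eq_single i]
          · simp
          · intro k _ hk; rw [Pi.single_eq_of_ne hk, zero_smul]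
          · intro h; exact absurd (Finset.mem_univ i) h
        · rw [Finset.sum_eq_single j]
          · simp
          · intro k _ hk; rw [Pi.single_eq_of_ne hk, smul_zero, zero_smul]
          · intro h; exact absurd (Finset.mem_univ j) h
      rw [h1, hζa, hζa, mul_assoc]
      have h2 := hwU t ht
      rw [hU1] at h2
      rw [h2, hN]
      simp only
      rw [mul_sub, mul_smul_comm])
  have hs1 : 1 ≤ ∑ i, v i := (hv 0).trans (Finset.single_le_sum (fun i _ => Nat.zero_le _)
    (Finset.mem_univ 0))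
  have hn' : -((((∑ i, v i - 1 : ℕ) : ℂ)) + 1 + (0 : ℕ)) = -((∑ i, v i : ℕ) : ℂ) := by
    rw [Nat.cast_sub hs1]; push_cast; ring
  rwa [hn'] at hres

/-- **The root `-(∑ v_i) / d`**, for an ideal with algebraically independent weighted initial
forms of degree `d`, for the weights `v_i`. -/
theorem semi_root (f : ι → MvPolynomial (Fin (n + 1)) ℂ) (v : Fin (n + 1) → ℕ)
    (hv : ∀ i, 1 ≤ v i) (d : ℕ) (hd : 0 < d)
    (hf : ∀ j, ∀ k < d, MvPolynomial.weightedHomogeneousComponent v k (f j) = 0)
    (b : Polynomial ℂ) (H : MvPolynomial (Fin (n + 1)) ℂ) (hb : IsLocEq H f b)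
    (hH : MvPolynomial.eval 0 H ≠ 0)
    (e : Fin (n + 1) → ι)
    (hdet : (Matrix.of fun s t => MvPolynomial.pderiv s
      (MvPolynomial.weightedHomogeneousComponent v d (f (e t)))).det ≠ 0) :
    b.eval (-((∑ i, v i : ℕ) : ℂ) / d) = 0 := by
  classical
  set F : ι → MvPolynomial (Fin (n + 1)) ℂ := fun j =>
    MvPolynomial.weightedHomogeneousComponent v d (f j) with hF
  have hFh : ∀ j, (F j).IsWeightedHomogeneous v d := fun j =>
    MvPolynomial.weightedHomogeneousComponent_isWeightedHomogeneous d _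
  have h1 : MvPolynomial.X 0 *
      (Matrix.of fun s t => MvPolynomial.pderiv s (F (e t))).det ≠ 0 :=
    mul_ne_zero (MvPolynomial.X_ne_zero 0) hdet
  obtain ⟨p, hp⟩ : ∃ p, MvPolynomial.eval p (MvPolynomial.X 0 *
      (Matrix.of fun s t => MvPolynomial.pderiv s (F (e t))).det) ≠ 0 := by
    by_contra hne
    push Not at hne
    exact h1 (MvPolynomial.funext fun p => by rw [hne p, map_zero])
  rw [map_mul, MvPolynomial.eval_X] at hp
  have hp0 := left_ne_zero_of_mul hp
  have hp1 := right_ne_zero_of_mul hp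
  have hmap : ∀ e' : Fin (n + 1) → ι, MvPolynomial.eval p
      (Matrix.of fun s t => MvPolynomial.pderiv s (F (e' t))).det =
      (Matrix.of fun s t => MvPolynomial.eval p (MvPolynomial.pderiv s (F (e' t)))).det := by
    intro e'
    rw [RingHom.map_det]
    rfl
  rw [hmap] at hp1
  -- one of the forms does not vanish at the point
  obtain ⟨t0, ht0⟩ : ∃ t, MvPolynomial.eval p (F (e t)) ≠ 0 := by
    by_contra hne
    push Not at hne
    apply hp1
    rw [← Matrix.exists_vecMul_eq_zero_iff]
    refine ⟨fun s => (v s : ℂ) * p s, fun h => ?_, ?_⟩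
    · have h3 := congrFun h 0
      exact (mul_ne_zero (Nat.cast_ne_zero.2 (by have := hv 0; omega)) hp0) h3
    · funext t
      have h2 := congrArg (MvPolynomial.eval p) (hFh (e t)).sum_weight_X_mul_pderiv
      rw [map_sum, map_nsmul, hne, smul_zero] at h2
      change ∑ s, ((v s : ℂ) * p s) * MvPolynomial.eval p (MvPolynomial.pderiv s (F (e t))) = 0
      rw [← h2]
      refine Finset.sum_congr rfl fun s _ => ?_
      rw [map_nsmul, map_mul, MvPolynomial.eval_X, nsmul_eq_mul]
      ring
  refine semi_root_aux f v hv d hd hf b H hb hH (e ∘ Equiv.swap 0 t0) p hp0 ?_ ?_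
  · have h2 : (Matrix.of fun s t => MvPolynomial.eval p (MvPolynomial.pderiv s
        (F ((e ∘ Equiv.swap 0 t0) t)))) = (Matrix.of fun s t => MvPolynomial.eval p
          (MvPolynomial.pderiv s (F (e t)))).submatrix id (Equiv.swap 0 t0) := rfl
    change (Matrix.of fun s t => MvPolynomial.eval p (MvPolynomial.pderiv s
        (F ((e ∘ Equiv.swap 0 t0) t)))).det ≠ 0
    rw [h2, Matrix.det_permute']
    refine mul_ne_zero ?_ hp1
    rcases Int.units_eq_one_or (Equiv.Perm.sign (Equiv.swap 0 t0)) with h | h <;> rw [h] <;> simp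
  · change MvPolynomial.eval p (F ((e ∘ Equiv.swap 0 t0) 0)) ≠ 0
    rw [Function.comp_apply, Equiv.swap_apply_left]
    exact ht0

end Gen

end Pool.Agent.NH97.MM
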