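import Pool.Agent.NH97.MM.Stm

set_option autoImplicit false

/-! # A redundant generator may be added (ADD) -/

namespace Pool.Agent.NH97.MM

namespace ADD

section

variable {σ ι : Type} [Fintype ι] [DecidableEq ι]

omit [Fintype ι] in
theorem inc_apply (s : ι → ℕ) (k j : ι) : inc s k j = s j + if j = k then 1 else 0 := by
  unfold inc
  by_cases h : j = k
  · subst h
    rw [Function.update_self, if_pos rfl]
  · rw [Function.update_of_ne h, if_neg h, add_zero]

omit [Fintype ι] in
theorem dec_apply (s : ι → ℕ) (k j : ι) : dec s k j = s j - if j = k then 1 else 0 := by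
  unfold dec
  by_cases h : j = k
  · subst h
    rw [Function.update_self, if_pos rfl]
  · rw [Function.update_of_ne h, if_neg h, Nat.sub_zero]

omit [Fintype ι] in
theorem inc_comm (s : ι → ℕ) (k j : ι) : inc (inc s k) j = inc (inc s j) k := by
  funext i
  simp only [inc_apply]
  omega

omit [Fintype ι] in
theorem dec_inc_ne (s : ι → ℕ) {k j : ι} (h : k ≠ j) : dec (inc s k) j = inc (dec s j) k := by
  funext i
  simp only [inc_apply, dec_apply]
  by_cases h1 : i = j
  · have h2 : i ≠ k := fun h' => h (h'.symm.trans h1)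
    rw [if_neg h2]
    omega
  · rw [if_neg h1]
    omega

omit [Fintype ι] in
theorem dec_inc_same (s : ι → ℕ) (j : ι) : dec (inc s j) j = s := by
  funext i
  simp only [inc_apply, dec_apply]
  omega

omit [Fintype ι] in
theorem inc_dec_same (s : ι → ℕ) (j : ι) (h : s j ≠ 0) : inc (dec s j) j = s := by
  funext i
  simp only [inc_apply, dec_apply]
  by_cases h1 : i = j
  · subst h1
    rw [if_pos rfl]
    omega
  · rw [if_neg h1]
    omega

theorem sum_inc (s : ι → ℕ) (k : ι) : ∑ j, inc s k j = (∑ j, s j) + 1 := by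
  simp only [inc_apply, Finset.sum_add_distrib]
  rw [Finset.sum_ite_eq', if_pos (Finset.mem_univ k)]

theorem prod_inc (f : ι → MvPowerSeries σ ℂ) (s : ι → ℕ) (k : ι) :
    ∏ j, f j ^ inc s k j = f k * ∏ j, f j ^ s j := by
  simp only [inc_apply, pow_add, Finset.prod_mul_distrib]
  rw [mul_comm]
  congr 1
  have : ∀ j, f j ^ (if j = k then 1 else 0) = if j = k then f j else 1 := by
    intro j
    split_ifs <;> simp
  rw [Finset.prod_congr rfl fun j _ => this j, Finset.prod_ite_eq', if_pos (Finset.mem_univ k)]

/-- the operator -/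
noncomputable def U (u : ι → MvPowerSeries σ ℂ) (F : PF σ ι) : PF σ ι :=
  fun s => ∑ k, u k * F (inc s k)

variable (u : ι → MvPowerSeries σ ℂ)

theorem U_zero : U u (fun _ => 0) = fun _ => 0 := by
  funext s
  unfold U
  simp

theorem U_add (F G : PF σ ι) : U u (fun s => F s + G s) = fun s => U u F s + U u G s := by
  funext s
  unfold U
  rw [← Finset.sum_add_distrib]
  exact Finset.sum_congr rfl fun k _ => mul_add _ _ _

theorem U_mul (r : MvPowerSeries σ ℂ) (F : PF σ ι) :
    U u (fun s => r * F s) = fun s => r * U u F s := by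
  funext s
  unfold U
  rw [Finset.mul_sum]
  exact Finset.sum_congr rfl fun k _ => by ring

theorem U_up (F : PF σ ι) (j : ι) : U u (fun s => F (inc s j)) = fun s => U u F (inc s j) := by
  funext s
  unfold U
  exact Finset.sum_congr rfl fun k _ => by rw [inc_comm]

/-- the operators `U u` commute -/
theorem U_comm (v : ι → MvPowerSeries σ ℂ) (F : PF σ ι) : U u (U v F) = U v (U u F) := by
  funext s
  unfold U
  simp only [Finset.mul_sum]
  rw [Finset.sum_comm]
  refine Finset.sum_congr rfl fun k _ => Finset.sum_congr rfl fun l _ => ?_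
  rw [inc_comm]
  ring

theorem it_zero (n : ℕ) : (U u)^[n] (fun _ => 0) = fun _ => 0 := by
  induction n with
  | zero => rfl
  | succ n ih => rw [Function.iterate_succ_apply, U_zero, ih]

theorem it_add (n : ℕ) : ∀ F G : PF σ ι,
    (U u)^[n] (fun s => F s + G s) = fun s => (U u)^[n] F s + (U u)^[n] G s := by
  induction n with
  | zero => intro F G; rfl
  | succ n ih =>
    intro F G
    rw [Function.iterate_succ_apply, U_add, ih]
    rfl

theorem it_mul (r : MvPowerSeries σ ℂ) (n : ℕ) : ∀ F : PF σ ι,
    (U u)^[n] (fun s => r * F s) = fun s => r * (U u)^[n] F s := by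
  induction n with
  | zero => intro F; rfl
  | succ n ih =>
    intro F
    rw [Function.iterate_succ_apply, U_mul, ih]
    rfl

theorem it_up (j : ι) (n : ℕ) : ∀ F : PF σ ι,
    (U u)^[n] (fun s => F (inc s j)) = fun s => (U u)^[n] F (inc s j) := by
  induction n with
  | zero => intro F; rfl
  | succ n ih =>
    intro F
    rw [Function.iterate_succ_apply, U_up, ih]
    rfl

theorem it_comm (v : ι → MvPowerSeries σ ℂ) (n : ℕ) : ∀ F : PF σ ι,
    (U u)^[n] (U v F) = U v ((U u)^[n] F) := by
  induction n with
  | zero => intro F; rfl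
  | succ n ih =>
    intro F
    rw [Function.iterate_succ_apply, U_comm, ih, Function.iterate_succ_apply]

theorem U_der [Finite σ] (i : σ) (F : PF σ ι) :
    U u (fun s => MvPowerSeries.pderiv ℂ i (F s)) =
      fun s => MvPowerSeries.pderiv ℂ i (U u F s) -
        U (fun k => MvPowerSeries.pderiv ℂ i (u k)) F s := by
  funext s
  unfold U
  rw [map_sum, ← Finset.sum_sub_distrib]
  refine Finset.sum_congr rfl fun k _ => ?_
  rw [Derivation.leibniz, smul_eq_mul, smul_eq_mul]
  ring

theorem it_der [Finite σ] (i : σ) (F : PF σ ι) (n : ℕ) :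
    (U u)^[n] (fun s => MvPowerSeries.pderiv ℂ i (F s)) =
      fun s => MvPowerSeries.pderiv ℂ i ((U u)^[n] F s) -
        (n : MvPowerSeries σ ℂ) * U (fun k => MvPowerSeries.pderiv ℂ i (u k))
          ((U u)^[n - 1] F) s := by
  induction n with
  | zero =>
    funext s
    simp
  | succ n ih =>
    rw [Function.iterate_succ_apply', ih]
    have h1 : (fun s => MvPowerSeries.pderiv ℂ i ((U u)^[n] F s) -
        (n : MvPowerSeries σ ℂ) * U (fun k => MvPowerSeries.pderiv ℂ i (u k))
          ((U u)^[n - 1] F) s) = fun s => MvPowerSeries.pderiv ℂ i ((U u)^[n] F s) +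
        (-(n : MvPowerSeries σ ℂ)) * U (fun k => MvPowerSeries.pderiv ℂ i (u k))
          ((U u)^[n - 1] F) s := by
      funext s
      ring
    rw [h1, U_add, U_mul, U_der, U_comm]
    funext s
    rw [Nat.add_sub_cancel, Function.iterate_succ_apply']
    rcases Nat.eq_zero_or_pos n with h2 | h2
    · subst h2
      simp
    · obtain ⟨m, rfl⟩ : ∃ m, n = m + 1 := ⟨n - 1, by omega⟩
      rw [Nat.add_sub_cancel, ← Function.iterate_succ_apply' (U u) m F]
      push_cast
      ring

/-- `F ↦ s_j F(s - e_j)` -/
noncomputable def Y (j : ι) (F : PF σ ι) : PF σ ι :=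
  fun s => (s j : MvPowerSeries σ ℂ) * F (dec s j)

theorem U_Y (j : ι) (F : PF σ ι) : U u (Y j F) = fun s => Y j (U u F) s + u j * F s := by
  funext s
  unfold U Y
  rw [Finset.mul_sum, ← Finset.add_sum_erase _ _ (Finset.mem_univ j),
    ← Finset.add_sum_erase _ (fun k => (s j : MvPowerSeries σ ℂ) * (u k * F (inc (dec s j) k)))
      (Finset.mem_univ j)]
  have h1 : ∑ k ∈ Finset.univ.erase j, u k * (((inc s k j : ℕ) : MvPowerSeries σ ℂ) *
      F (dec (inc s k) j)) = ∑ k ∈ Finset.univ.erase j,
        (s j : MvPowerSeries σ ℂ) * (u k * F (inc (dec s j) k)) := by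
    refine Finset.sum_congr rfl fun k hk => ?_
    have hkj : k ≠ j := Finset.ne_of_mem_erase hk
    rw [dec_inc_ne s hkj, inc_apply, if_neg hkj.symm, add_zero]
    ring
  have h2 : u j * (((inc s j j : ℕ) : MvPowerSeries σ ℂ) * F (dec (inc s j) j)) =
      (s j : MvPowerSeries σ ℂ) * (u j * F (inc (dec s j) j)) + u j * F s := by
    rw [dec_inc_same, inc_apply, if_pos rfl]
    by_cases h3 : s j = 0
    · rw [h3]
      push_cast
      ring
    · rw [inc_dec_same s j h3]
      push_cast
      ring
  rw [h1, h2]
  ring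

theorem it_Y (j : ι) (F : PF σ ι) (n : ℕ) :
    (U u)^[n] (Y j F) = fun s => Y j ((U u)^[n] F) s +
      (n : MvPowerSeries σ ℂ) * (u j * (U u)^[n - 1] F s) := by
  induction n with
  | zero =>
    funext s
    simp
  | succ n ih =>
    rw [Function.iterate_succ_apply', ih, U_add, U_mul, U_mul, U_Y]
    funext s
    rw [Nat.add_sub_cancel, Function.iterate_succ_apply']
    rcases Nat.eq_zero_or_pos n with h2 | h2
    · subst h2
      simp
    · obtain ⟨m, rfl⟩ : ∃ m, n = m + 1 := ⟨n - 1, by omega⟩
      rw [Nat.add_sub_cancel, ← Function.iterate_succ_apply' (U u) m F]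
      push_cast
      ring

theorem it_c (n : ℕ) : ∀ (c : ℕ → MvPowerSeries σ ℂ) (F : PF σ ι) (s : ι → ℕ),
    (U u)^[n] (fun s => c (∑ j, s j) * F s) s = c ((∑ j, s j) + n) * (U u)^[n] F s := by
  induction n with
  | zero => intro c F s; rfl
  | succ n ih =>
    intro c F s
    have h1 : U u (fun s => c (∑ j, s j) * F s) = fun s => c ((∑ j, s j) + 1) * U u F s := by
      funext s
      unfold U
      rw [Finset.mul_sum]
      refine Finset.sum_congr rfl fun k _ => ?_
      beta_reduce
      rw [sum_inc]
      ring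
    rw [Function.iterate_succ_apply, h1, ih (fun m => c (m + 1)) (U u F) s,
      ← Function.iterate_succ_apply (U u) n F, add_assoc]

/-- the function of the exponents of the larger family -/
noncomputable def T (F : PF σ ι) : PF σ (Option ι) :=
  fun s' => (U u)^[s' none] F (fun j => s' (some j))

omit [Fintype ι] in
theorem inc_none (s' : Option ι → ℕ) (k : ι) : inc s' (some k) none = s' none := by
  rw [inc_apply, if_neg (by simp), add_zero]

omit [Fintype ι] in
theorem inc_some (s' : Option ι → ℕ) (k : ι) :
    (fun j => inc s' (some k) (some j)) = inc (fun j => s' (some j)) k := by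
  funext j
  rw [inc_apply, inc_apply]
  simp

omit [Fintype ι] in
theorem dec_none (s' : Option ι → ℕ) (k : ι) : dec s' (some k) none = s' none := by
  rw [dec_apply, if_neg (by simp), Nat.sub_zero]

omit [Fintype ι] in
theorem dec_some (s' : Option ι → ℕ) (k : ι) :
    (fun j => dec s' (some k) (some j)) = dec (fun j => s' (some j)) k := by
  funext j
  rw [dec_apply, dec_apply]
  simp

omit [Fintype ι] in
theorem decn_none (s' : Option ι → ℕ) : dec s' none none = s' none - 1 := by
  rw [dec_apply, if_pos rfl]

omit [Fintype ι] in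
theorem decn_some (s' : Option ι → ℕ) :
    (fun j : ι => dec s' none (some j)) = fun j => s' (some j) := by
  funext j
  rw [dec_apply, if_neg (by simp), Nat.sub_zero]

variable {u}

theorem FV_sum {σ κ α : Type} [Fintype κ] [DecidableEq κ] {g : κ → MvPowerSeries σ ℂ} {a : ℤ}
    (t : Finset α) (F : α → PF σ κ) (h : ∀ i ∈ t, FV g a (F i)) :
    FV g a (fun s => ∑ i ∈ t, F i s) := by
  classical
  induction t using Finset.induction_on with
  | empty => simpa using FV.zero a
  | insert i t hi ih =>
    have h1 := FV.add a _ _ (h i (Finset.mem_insert_self i t))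
      (ih fun j hj => h j (Finset.mem_insert_of_mem hj))
    simpa only [Finset.sum_insert hi] using h1

theorem it_base {f : ι → MvPowerSeries σ ℂ} {h : MvPowerSeries σ ℂ}
    (hu : h = ∑ j, u j * f j) (n : ℕ) :
    (U u)^[n] (fun s => ∏ j, f j ^ s j) = fun s => h ^ n * ∏ j, f j ^ s j := by
  have h1 : U u (fun s => ∏ j, f j ^ s j) = fun s => h * ∏ j, f j ^ s j := by
    funext s
    unfold U
    rw [hu, Finset.sum_mul]
    refine Finset.sum_congr rfl fun k _ => ?_
    show u k * (∏ j, f j ^ inc s k j) = u k * f k * ∏ j, f j ^ s j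
    rw [prod_inc]
    ring
  induction n with
  | zero => funext s; simp
  | succ n ih =>
    rw [Function.iterate_succ_apply', ih, U_mul, h1]
    funext s
    ring

theorem main [Finite σ] {f : ι → MvPowerSeries σ ℂ} {h : MvPowerSeries σ ℂ}
    (hu : h = ∑ j, u j * f j) {a : ℤ} {F : PF σ ι} (hF : FV f a F) :
    FV (ext f h) a (T u F) := by
  induction hF with
  | base =>
    have h2 := it_base hu
    have h3 : T u (fun s => ∏ j, f j ^ s j) = fun s' => ∏ o, ext f h o ^ s' o := by
      funext s'
      unfold T
      rw [h2, Fintype.prod_option]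
      rfl
    rw [h3]
    exact FV.base
  | zero a =>
    have h1 : T u (fun _ : ι → ℕ => (0 : MvPowerSeries σ ℂ)) = fun _ => 0 := by
      funext s'
      unfold T
      rw [it_zero]
    rw [h1]
    exact FV.zero a
  | add a F G _ _ ih1 ih2 =>
    have h1 : T u (fun s => F s + G s) = fun s' => T u F s' + T u G s' := by
      funext s'
      unfold T
      rw [it_add]
    rw [h1]
    exact FV.add a _ _ ih1 ih2
  | mul a F r _ ih =>
    have h1 : T u (fun s => r * F s) = fun s' => r * T u F s' := by
      funext s'
      unfold T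
      rw [it_mul]
    rw [h1]
    exact FV.mul a _ r ih
  | der a F i _ ih =>
    have h1 : T u (fun s => MvPowerSeries.pderiv ℂ i (F s)) = fun s' =>
        MvPowerSeries.pderiv ℂ i (T u F s') + ∑ k, (-MvPowerSeries.pderiv ℂ i (u k)) *
          ((s' none : MvPowerSeries σ ℂ) * T u F (inc (dec s' none) (some k))) := by
      funext s'
      unfold T
      rw [it_der]
      beta_reduce
      rw [sub_eq_add_neg]
      congr 1
      unfold U
      rw [Finset.mul_sum, ← Finset.sum_neg_distrib]
      refine Finset.sum_congr rfl fun k _ => ?_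
      rw [inc_none, decn_none, inc_some, decn_some]
      ring
    rw [h1]
    refine FV.add a _ _ (FV.der a _ i ih) (FV_sum _ _ fun k _ => FV.mul a _ _ ?_)
    have h2 := FV.down (a + 1) _ none (FV.up a _ (some k) ih)
    rw [add_sub_cancel_right] at h2
    exact h2
  | up a F j _ ih =>
    have h1 : T u (fun s => F (inc s j)) = fun s' => T u F (inc s' (some j)) := by
      funext s'
      unfold T
      rw [it_up, inc_none, inc_some]
    rw [h1]
    exact FV.up a _ _ ih
  | down a F j _ ih =>
    have h1 : T u (fun s => (s j : MvPowerSeries σ ℂ) * F (dec s j)) = fun s' =>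
        (s' (some j) : MvPowerSeries σ ℂ) * T u F (dec s' (some j)) +
          u j * ((s' none : MvPowerSeries σ ℂ) * T u F (dec s' none)) := by
      funext s'
      unfold T
      have h2 := it_Y u j F (s' none)
      rw [show (U u)^[s' none] (fun s => (s j : MvPowerSeries σ ℂ) * F (dec s j)) =
        (U u)^[s' none] (Y j F) from rfl, h2, dec_none, dec_some, decn_none, decn_some]
      unfold Y
      ring
    rw [h1]
    exact FV.add _ _ _ (FV.down a _ _ ih) (FV.mul _ _ _ (FV.down a _ _ ih))

end

end ADD

open ADD in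
theorem t_ADD : S_ADD := by
  intro σ ι _ _ _ f h u hu b hb
  have h1 := main hu hb
  unfold FE
  have h2 : T u (fun s => MvPowerSeries.C (b.eval ((∑ j, s j : ℕ) : ℂ)) * ∏ j, f j ^ s j) =
      fun s' => MvPowerSeries.C (b.eval ((∑ j, s' j : ℕ) : ℂ)) * ∏ o, ext f h o ^ s' o := by
    funext s'
    unfold T
    rw [it_c u (s' none) (fun m => MvPowerSeries.C (b.eval ((m : ℕ) : ℂ)))
      (fun s => ∏ j, f j ^ s j)]
    have h3 : (∑ j, s' (some j)) + s' none = ∑ o, s' o := by
      rw [Fintype.sum_option, add_comm]
    rw [h3]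
    congr 1
    have h5 := it_base hu
    rw [h5, Fintype.prod_option]
    rfl
  rw [h2] at h1
  exact h1

end Pool.Agent.NH97.MM
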