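import Pool.Agent.NH97.MM.Stm

set_option autoImplicit false

/-! # MM-DRP: a redundant generator may be removed -/

namespace Pool.Agent.NH97.MM

namespace DRPAux

variable {σ ι : Type} [DecidableEq ι]

/-- the exponents `s` with the exponent `t` of the additional generator -/
def cons (t : ℕ) (s : ι → ℕ) : Option ι → ℕ := fun o => o.elim t s

theorem inc_none (t : ℕ) (s : ι → ℕ) : inc (cons t s) none = cons (t + 1) s := by
  funext o
  rcases o with _ | i
  · exact Function.update_self _ _ _
  · exact Function.update_of_ne (Option.some_ne_none i) _ _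

theorem inc_some (t : ℕ) (s : ι → ℕ) (j : ι) : inc (cons t s) (some j) = cons t (inc s j) := by
  funext o
  rcases o with _ | i
  · exact Function.update_of_ne (Option.some_ne_none j).symm _ _
  · by_cases h : i = j
    · subst h
      exact (Function.update_self _ _ _).trans (Function.update_self i (s i + 1) s).symm
    · show Function.update (cons t s) (some j) (s j + 1) (some i) =
        Function.update s j (s j + 1) i
      rw [Function.update_of_ne h, Function.update_of_ne fun e => h (Option.some_injective _ e)]
      rfl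

theorem dec_none (t : ℕ) (s : ι → ℕ) : dec (cons t s) none = cons (t - 1) s := by
  funext o
  rcases o with _ | i
  · exact Function.update_self _ _ _
  · exact Function.update_of_ne (Option.some_ne_none i) _ _

theorem dec_some (t : ℕ) (s : ι → ℕ) (j : ι) : dec (cons t s) (some j) = cons t (dec s j) := by
  funext o
  rcases o with _ | i
  · exact Function.update_of_ne (Option.some_ne_none j).symm _ _
  · by_cases h : i = j
    · subst h
      exact (Function.update_self _ _ _).trans (Function.update_self i (s i - 1) s).symm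
    · show Function.update (cons t s) (some j) (s j - 1) (some i) =
        Function.update s j (s j - 1) i
      rw [Function.update_of_ne h, Function.update_of_ne fun e => h (Option.some_injective _ e)]
      rfl

theorem inc_eq (s : ι → ℕ) (j : ι) : inc s j = fun i => s i + if i = j then 1 else 0 := by
  funext i
  by_cases h : i = j
  · subst h
    rw [if_pos rfl]
    exact Function.update_self _ _ _
  · rw [if_neg h, add_zero]
    exact Function.update_of_ne h _ _

variable [Fintype ι]

theorem prod_inc (f : ι → MvPowerSeries σ ℂ) (s : ι → ℕ) (j : ι) :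
    ∏ i, f i ^ inc s j i = f j * ∏ i, f i ^ s i := by
  rw [inc_eq]
  simp only [pow_add]
  rw [Finset.prod_mul_distrib, mul_comm]
  congr 1
  rw [Finset.prod_eq_single j]
  · rw [if_pos rfl, pow_one]
  · intro i _ hi
    rw [if_neg hi, pow_zero]
  · intro h
    exact absurd (Finset.mem_univ j) h

theorem FV_sum {f : ι → MvPowerSeries σ ℂ} {a : ℤ} {κ : Type} (S : Finset κ) (F : κ → PF σ ι)
    (h : ∀ k, FV f a (F k)) : FV f a (fun s => ∑ k ∈ S, F k s) := by
  classical
  induction S using Finset.induction_on with
  | empty =>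
    have e : (fun s : ι → ℕ => ∑ k ∈ (∅ : Finset κ), F k s) = fun _ => 0 :=
      funext fun s => Finset.sum_empty
    rw [e]
    exact FV.zero a
  | insert k S hk ih =>
    have e : (fun s : ι → ℕ => ∑ k ∈ insert k S, F k s) = fun s => F k s + ∑ k ∈ S, F k s :=
      funext fun s => Finset.sum_insert hk
    rw [e]
    exact FV.add a _ _ (h k) ih

theorem cast {f : ι → MvPowerSeries σ ℂ} {a b : ℤ} {F : PF σ ι} (h : FV f a F) (e : a = b) :
    FV f b F := e ▸ h

theorem pow_base {f : ι → MvPowerSeries σ ℂ} {h : MvPowerSeries σ ℂ} {u : ι → MvPowerSeries σ ℂ}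
    (hu : h = ∑ j, u j * f j) (t : ℕ) : FV f (t : ℤ) (fun s => h ^ t * ∏ j, f j ^ s j) := by
  induction t with
  | zero =>
    have e : (fun s : ι → ℕ => h ^ 0 * ∏ j, f j ^ s j) = fun s => ∏ j, f j ^ s j := by
      funext s
      rw [pow_zero, one_mul]
    rw [e]
    exact cast FV.base (by norm_num)
  | succ t ih =>
    have e : (fun s : ι → ℕ => h ^ (t + 1) * ∏ j, f j ^ s j) = fun s =>
        ∑ k, u k * (fun s => (fun s : ι → ℕ => h ^ t * ∏ j, f j ^ s j) (inc s k)) s := by
      funext s
      simp only [prod_inc]
      rw [pow_succ]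
      nth_rewrite 2 [hu]
      rw [Finset.mul_sum, Finset.sum_mul]
      exact Finset.sum_congr rfl fun k _ => by ring
    rw [e]
    exact FV_sum _ _ fun k => FV.mul _ _ (u k) (cast (FV.up _ _ k ih) (by push_cast; ring))

theorem main {f : ι → MvPowerSeries σ ℂ} {h : MvPowerSeries σ ℂ} {u : ι → MvPowerSeries σ ℂ}
    (hu : h = ∑ j, u j * f j) {a : ℤ} {F : PF σ (Option ι)} (hF : FV (ext f h) a F) :
    ∀ t : ℕ, FV f (a + t) (fun s => F (cons t s)) := by
  induction hF with
  | base =>
    intro t
    have e : (fun s : ι → ℕ => ∏ o, ext f h o ^ cons t s o) =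
        fun s => h ^ t * ∏ j, f j ^ s j := by
      funext s
      rw [Fintype.prod_option]
      rfl
    rw [e]
    exact cast (pow_base hu t) (by ring)
  | zero a => exact fun t => FV.zero _
  | add a F G _ _ h1 h2 => exact fun t => FV.add _ _ _ (h1 t) (h2 t)
  | mul a F r _ h1 => exact fun t => FV.mul _ _ r (h1 t)
  | der a F i _ h1 => exact fun t => FV.der _ _ i (h1 t)
  | up a F o _ h1 =>
    intro t
    rcases o with _ | j
    · simp only [inc_none]
      exact cast (h1 (t + 1)) (by push_cast; ring)
    · simp only [inc_some]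
      exact cast (FV.up _ _ j (h1 t)) (by ring)
  | down a F o _ h1 =>
    intro t
    rcases o with _ | j
    · simp only [dec_none]
      rcases t with _ | t
      · have e : (fun s : ι → ℕ => ((cons 0 s none : ℕ) : MvPowerSeries σ ℂ) *
            F (cons (0 - 1) s)) = fun _ => 0 := by
          funext s
          show ((0 : ℕ) : MvPowerSeries σ ℂ) * _ = 0
          rw [Nat.cast_zero, zero_mul]
        rw [e]
        exact FV.zero _
      · exact cast (FV.mul _ _ ((t + 1 : ℕ) : MvPowerSeries σ ℂ) (h1 t)) (by push_cast; ring)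
    · simp only [dec_some]
      exact cast (FV.down _ _ j (h1 t)) (by ring)

end DRPAux

open DRPAux in
/-- **MM-DRP** -/
theorem t_DRP : S_DRP := by
  intro σ ι _ _ _ f h u hu b hb
  have h1 := main hu hb 0
  have e : (fun s : ι → ℕ => MvPowerSeries.C (b.eval ((∑ o, cons 0 s o : ℕ) : ℂ)) *
      ∏ o, ext f h o ^ cons 0 s o) =
      fun s => MvPowerSeries.C (b.eval ((∑ j, s j : ℕ) : ℂ)) * ∏ j, f j ^ s j := by
    funext s
    rw [Fintype.prod_option, Fintype.sum_option]
    show MvPowerSeries.C (b.eval ((0 + ∑ j, s j : ℕ) : ℂ)) * (h ^ 0 * ∏ j, f j ^ s j) = _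
    rw [zero_add, pow_zero, one_mul]
  unfold FE
  rw [← e]
  exact cast h1 (by norm_num)

end Pool.Agent.NH97.MM
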