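import Pool.Agent.NH97.MM.Stm

set_option autoImplicit false

/-! # The generators may be indexed differently -/

namespace Pool.Agent.NH97.MM

section

variable {σ ι κ : Type} [Fintype ι] [DecidableEq ι] [Fintype κ] [DecidableEq κ]

theorem inc_eqv (e : ι ≃ κ) (s : κ → ℕ) (j : ι) :
    (fun i => inc s (e j) (e i)) = inc (fun i => s (e i)) j := by
  funext i
  simp only [inc, Function.update_apply, e.injective.eq_iff]

theorem dec_eqv (e : ι ≃ κ) (s : κ → ℕ) (j : ι) :
    (fun i => dec s (e j) (e i)) = dec (fun i => s (e i)) j := by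
  funext i
  simp only [dec, Function.update_apply, e.injective.eq_iff]

theorem FV_eqv (e : ι ≃ κ) (f : κ → MvPowerSeries σ ℂ) {a : ℤ} {F : PF σ ι}
    (h : FV (fun j => f (e j)) a F) : FV f a (fun s : κ → ℕ => F (fun j => s (e j))) := by
  induction h with
  | base =>
    have h1 : (fun s : κ → ℕ => ∏ j, (fun j => f (e j)) j ^ (fun j => s (e j)) j) =
        fun s : κ → ℕ => ∏ j, f j ^ s j := by
      funext s
      exact Equiv.prod_comp e (fun j => f j ^ s j)
    rw [h1]
    exact FV.base
  | zero a => exact FV.zero a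
  | add a F G _ _ h1 h2 => exact FV.add a _ _ h1 h2
  | mul a F r _ h1 => exact FV.mul a _ r h1
  | der a F i _ h1 => exact FV.der a _ i h1
  | up a F j _ h1 =>
    have h2 := FV.up a _ (e j) h1
    simp only [inc_eqv] at h2
    exact h2
  | down a F j _ h1 =>
    have h2 := FV.down a _ (e j) h1
    simp only [dec_eqv] at h2
    exact h2

end

/-- MM-EQV -/
theorem t_EQV : S_EQV := by
  intro σ ι κ _ _ _ _ _ e f b h
  have h1 := FV_eqv e f h
  have h2 : (fun s : κ → ℕ => MvPowerSeries.C (σ := σ)
        (b.eval ((∑ j, (fun j => s (e j)) j : ℕ) : ℂ)) *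
        ∏ j, (fun j => f (e j)) j ^ (fun j => s (e j)) j) =
      fun s : κ → ℕ => MvPowerSeries.C (b.eval ((∑ j, s j : ℕ) : ℂ)) * ∏ j, f j ^ s j := by
    funext s
    rw [show (∑ j, (fun j => s (e j)) j) = ∑ j, s j from Equiv.sum_comp e s,
      show (∏ j, (fun j => f (e j)) j ^ (fun j => s (e j)) j) = ∏ j, f j ^ s j from
        Equiv.prod_comp e (fun j => f j ^ s j)]
  unfold FE
  rw [← h2]
  exact h1

end Pool.Agent.NH97.MM
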