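import Pool.Agent.NH97.MM.Stm
import Pool.Agent.W574.LM.Eng

set_option autoImplicit false

/-! # From local functional equations to explicit equations with formal coefficients -/

namespace Pool.Agent.NH97.MM

open MvPolynomial Pool.Agent.W574.SM Pool.Agent.W574.LM

theorem lb_of_loc {σ ι : Type} [Fintype ι] (f : ι → MvPolynomial σ ℂ) (b : Polynomial ℂ)
    (H : MvPolynomial σ ℂ) (hH : constantCoeff H ≠ 0) (hb : IsLocEq H f b) : LB f b := by
  classical
  obtain ⟨S, P, hS, hP⟩ := hb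
  set T : Finset (Σ _ : ι → ℤ, (ι →₀ ℕ)) := S.sigma fun c => (P c).support with hT
  set g : ↥T ≃ Fin T.card := T.equivFin with hg
  have hHc : MvPowerSeries.constantCoeff (H : MvPowerSeries σ ℂ) ≠ 0 := by
    rw [← MvPowerSeries.coeff_zero_eq_constantCoeff_apply, MvPolynomial.coeff_coe]
    exact hH
  obtain ⟨Q0, hQ0⟩ : ∃ Q0 : (ι → ℤ) → (ι →₀ ℕ) → Pool.Agent.H628R4.TP.weylS σ, ∀ c β p,
      (Q0 c β : Module.End ℂ (MvPolynomial σ ℂ)) p =
        (P c β : Module.End ℂ (MvPolynomial σ ℂ)) p :=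
    ⟨fun c β => ⟨(P c β).1, (P c β).2⟩, fun _ _ _ => rfl⟩
  refine ⟨T.card, fun l => (g.symm l).1.1, fun l => ∏ j, X j ^ ((g.symm l).1.2 j),
    fun _ => (H : MvPowerSeries σ ℂ)⁻¹, fun l => Q0 (g.symm l).1.1 (g.symm l).1.2,
    fun l => hS _ (Finset.mem_sigma.1 (g.symm l).2).1, fun s => ?_⟩
  have h1 := congrArg (fun p : MvPolynomial σ ℂ => (H : MvPowerSeries σ ℂ)⁻¹ *
    (p : MvPowerSeries σ ℂ)) (hP s)
  beta_reduce at h1
  rw [MvPolynomial.coe_mul, ← mul_assoc, MvPowerSeries.inv_mul_cancel _ hHc, one_mul,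
    MvPolynomial.coe_mul, MvPolynomial.coe_C] at h1
  rw [h1]
  set c0 : (ι → ℤ) → ℕ := fun c => ∏ j, (if c j < 0 then (s j).choose (-c j).toNat else 1) with hc0
  set K : (ι → ℤ) → MvPolynomial σ ℂ := fun c => ∏ j, f j ^ ((s j : ℤ) + c j).toNat with hK
  have hc1 : ∀ c : ι → ℤ, (∏ j, ((s j).choose (-(c j)).toNat : ℂ)) = (c0 c : ℂ) := by
    intro c
    rw [hc0]
    push_cast
    refine Finset.prod_congr rfl fun j _ => ?_
    by_cases h : c j < 0
    · rw [if_pos h]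
    · rw [if_neg h]
      have : (-(c j)).toNat = 0 := by omega
      rw [this, Nat.choose_zero_right, Nat.cast_one]
  have e1 : (∑ c ∈ S, applyAt (P c) s (C (c0 c : ℂ) * K c)) =
      ∑ x ∈ T, C ((∏ j, (s j : ℂ) ^ x.2 j) * (c0 x.1 : ℂ)) *
        (P x.1 x.2 : Module.End ℂ (MvPolynomial σ ℂ)) (K x.1) := by
    rw [hT, Finset.sum_sigma]
    refine Finset.sum_congr rfl fun c _ => ?_
    rw [applyAt, Finsupp.sum]
    refine Finset.sum_congr rfl fun β _ => ?_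
    have e3 : C (c0 c : ℂ) * K c = (c0 c : ℂ) • K c := C_mul'
    rw [e3, map_smul, C_mul', smul_smul]
  rw [e1, ← Finset.sum_coe_sort T, ← Equiv.sum_comp g.symm]
  have e2 : ∀ (κ : Type) (t : Finset κ) (F : κ → MvPolynomial σ ℂ),
      ((∑ i ∈ t, F i : MvPolynomial σ ℂ) : MvPowerSeries σ ℂ) =
        ∑ i ∈ t, (F i : MvPowerSeries σ ℂ) := by
    intro κ t F
    exact map_sum (MvPolynomial.coeToMvPowerSeries.ringHom (σ := σ) (R := ℂ)) F t
  rw [e2, Finset.mul_sum]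
  refine Finset.sum_congr rfl fun l _ => ?_
  beta_reduce
  have e4 : (eval fun j => (s j : ℂ)) (∏ j, X j ^ ((g.symm l).1.2 j) : MvPolynomial ι ℂ) =
      ∏ j, (s j : ℂ) ^ ((g.symm l).1.2 j) := by
    rw [MvPolynomial.eval_prod]
    simp only [map_pow, eval_X]
  rw [MvPolynomial.coe_mul, MvPolynomial.coe_C, e4, hc1, hQ0]
  ring

end Pool.Agent.NH97.MM
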