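import Pool.Agent.NH97.MM.Stm

/-! # Functional equations of ideals of power series: they depend only on the ideal -/

set_option autoImplicit false
set_option linter.unusedSectionVars false

namespace Pool.Agent.NH97.MM

namespace SAM

variable {σ : Type} [Finite σ]

/-- change of the index set -/
theorem re (hE : S_EQV) {ι κ : Type} [Fintype ι] [DecidableEq ι] [Fintype κ] [DecidableEq κ]
    (e : ι ≃ κ) (f : ι → MvPowerSeries σ ℂ) (g : κ → MvPowerSeries σ ℂ) (h : ∀ j, g (e j) = f j)
    (b : Polynomial ℂ) (hf : FE f b) : FE g b := by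
  have h1 : (fun j => g (e j)) = f := funext h
  rw [← h1] at hf
  exact hE σ ι κ e g b hf

/-- one element of the second family apart -/
def eo (ι α : Type) : Option (ι ⊕ α) ≃ ι ⊕ Option α where
  toFun
    | none => Sum.inr none
    | some (Sum.inl i) => Sum.inl i
    | some (Sum.inr a) => Sum.inr (some a)
  invFun
    | Sum.inl i => some (Sum.inl i)
    | Sum.inr none => none
    | Sum.inr (some a) => some (Sum.inr a)
  left_inv := by rintro (_ | _ | _) <;> rfl
  right_inv := by rintro (_ | _ | _) <;> rfl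

theorem eo_elim {ι α : Type} (f : ι → MvPowerSeries σ ℂ) (g : Option α → MvPowerSeries σ ℂ)
    (j : Option (ι ⊕ α)) :
    Sum.elim f g (eo ι α j) = ext (Sum.elim f (fun a => g (some a))) (g none) j := by
  rcases j with _ | _ | _ <;> rfl

theorem mem_comb {ι α : Type} [Fintype ι] [Fintype α] (f : ι → MvPowerSeries σ ℂ)
    (g : α → MvPowerSeries σ ℂ) (h : MvPowerSeries σ ℂ) (hh : h ∈ Ideal.span (Set.range f)) :
    ∃ u : ι ⊕ α → MvPowerSeries σ ℂ, h = ∑ j, u j * Sum.elim f g j := by
  have h1 : h ∈ Ideal.span (Set.range (Sum.elim f g)) := by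
    refine Ideal.span_mono ?_ hh
    rintro _ ⟨i, rfl⟩
    exact ⟨Sum.inl i, rfl⟩
  obtain ⟨u, hu⟩ := Ideal.mem_span_range_iff_exists_fun.mp h1
  exact ⟨u, hu.symm⟩

/-- adding redundant generators -/
theorem stepA (hA : S_ADD) (hE : S_EQV) {ι : Type} [Fintype ι] [DecidableEq ι]
    (f : ι → MvPowerSeries σ ℂ) (b : Polynomial ℂ) (hf : FE f b) (α : Type) [Fintype α] :
    ∀ (_ : DecidableEq α) (g : α → MvPowerSeries σ ℂ), (∀ a, g a ∈ Ideal.span (Set.range f)) →
      FE (Sum.elim f g) b := by
  refine Fintype.induction_empty_option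
    (P := fun (α : Type) (_ : Fintype α) => ∀ (_ : DecidableEq α) (g : α → MvPowerSeries σ ℂ),
      (∀ a, g a ∈ Ideal.span (Set.range f)) → FE (Sum.elim f g) b) ?_ ?_ ?_ α
  · intro α β _ e h d g hg
    classical
    letI : Fintype α := Fintype.ofEquiv β e.symm
    have h1 := h (Classical.decEq α) (fun a => g (e a)) (fun a => hg _)
    refine re hE (Equiv.sumCongr (Equiv.refl ι) e) _ _ (fun j => ?_) b h1
    rcases j with _ | _ <;> rfl
  · intro d g _
    refine re hE (Equiv.sumEmpty ι PEmpty).symm _ _ (fun j => rfl) b hf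
  · intro α _ h d g hg
    classical
    have h1 := h (Classical.decEq α) (fun a => g (some a)) (fun a => hg _)
    obtain ⟨u, hu⟩ := mem_comb f (fun a => g (some a)) (g none) (hg none)
    have h2 := hA σ (ι ⊕ α) (Sum.elim f (fun a => g (some a))) (g none) u hu b
      (re hE (Equiv.refl _) _ _ (fun j => rfl) b h1)
    exact re hE (eo ι α) _ _ (fun j => eo_elim f g j) b h2

/-- removing redundant generators -/
theorem stepB (hD : S_DRP) (hE : S_EQV) {κ : Type} [Fintype κ] [DecidableEq κ]
    (g : κ → MvPowerSeries σ ℂ) (b : Polynomial ℂ) (α : Type) [Fintype α] :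
    ∀ (_ : DecidableEq α) (f : α → MvPowerSeries σ ℂ), (∀ a, f a ∈ Ideal.span (Set.range g)) →
      FE (Sum.elim g f) b → FE g b := by
  refine Fintype.induction_empty_option
    (P := fun (α : Type) (_ : Fintype α) => ∀ (_ : DecidableEq α) (f : α → MvPowerSeries σ ℂ),
      (∀ a, f a ∈ Ideal.span (Set.range g)) → FE (Sum.elim g f) b → FE g b) ?_ ?_ ?_ α
  · intro α β _ e h d f hf hfe
    classical
    letI : Fintype α := Fintype.ofEquiv β e.symm
    refine h (Classical.decEq α) (fun a => f (e a)) (fun a => hf _) ?_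
    refine re hE (Equiv.sumCongr (Equiv.refl κ) e).symm _ _ (fun j => ?_) b hfe
    rcases j with _ | j
    · rfl
    · change f (e (e.symm j)) = f j
      rw [e.apply_symm_apply]
  · intro d f _ hfe
    refine re hE (Equiv.sumEmpty κ PEmpty) _ _ (fun j => ?_) b hfe
    rcases j with _ | j
    · rfl
    · exact j.elim
  · intro α _ h d f hf hfe
    classical
    refine h (Classical.decEq α) (fun a => f (some a)) (fun a => hf _) ?_
    obtain ⟨u, hu⟩ := mem_comb g (fun a => f (some a)) (f none) (hf none)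
    refine re hE (Equiv.refl _) _ _ (fun j => rfl) b
      (hD σ (κ ⊕ α) (Sum.elim g (fun a => f (some a))) (f none) u hu b ?_)
    refine re hE (eo κ α).symm _ _ (fun j => ?_) b hfe
    rw [← eo_elim, Equiv.apply_symm_apply]

end SAM

open SAM in
theorem t_SAM (hA : S_ADD) (hD : S_DRP) (hE : S_EQV) : S_SAM := by
  intro σ ι κ _ _ _ _ _ f g hfg b hf
  have h1 : FE (Sum.elim f g) b := by
    refine stepA hA hE f b hf κ inferInstance g (fun a => ?_)
    rw [hfg]
    exact Ideal.subset_span ⟨a, rfl⟩
  have h2 : FE (Sum.elim g f) b := by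
    refine re hE (Equiv.sumComm ι κ) _ _ (fun j => ?_) b h1
    rcases j with _ | _ <;> rfl
  refine stepB hD hE g b ι inferInstance f (fun a => ?_) h2
  rw [← hfg]
  exact Ideal.subset_span ⟨a, rfl⟩

end Pool.Agent.NH97.MM
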