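import Pool.Agent.NH97.MM.Stm

set_option autoImplicit false

/-! # MM-T1: from the explicit functional equation to `FE` -/

namespace Pool.Agent.NH97.MM.T1

open MvPolynomial
open Pool.Agent.NH97.MM

variable {σ ι : Type} [DecidableEq ι] [Fintype ι] {f : ι → MvPowerSeries σ ℂ}

theorem fv_congr {a a' : ℤ} {F G : PF σ ι} (h : FV f a F) (ha : a = a') (hF : ∀ s, F s = G s) :
    FV f a' G := by
  have : F = G := funext hF
  rw [← this, ← ha]
  exact h

theorem fv_sum {α : Type} (S : Finset α) (a : ℤ) (F : α → PF σ ι)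
    (h : ∀ x ∈ S, FV f a (F x)) : FV f a (fun s => ∑ x ∈ S, F x s) := by
  classical
  induction S using Finset.induction_on with
  | empty => exact fv_congr (FV.zero a) rfl (fun s => by simp)
  | insert x S hx ih =>
    refine fv_congr (FV.add a (F x) (fun s => ∑ x ∈ S, F x s) (h x (Finset.mem_insert_self x S))
      (ih (fun y hy => h y (Finset.mem_insert_of_mem hy)))) rfl (fun s => ?_)
    rw [Finset.sum_insert hx]

/-- multiplication by `s_j` -/
theorem fv_mul_s (a : ℤ) (F : PF σ ι) (j : ι) (h : FV f a F) :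
    FV f a (fun s => (s j : MvPowerSeries σ ℂ) * F s) := by
  refine fv_congr (FV.down (a + 1) _ j (FV.up a F j h)) (by ring) (fun s => ?_)
  rcases Nat.eq_zero_or_pos (s j) with h0 | h0
  · rw [h0]; simp
  · have : inc (dec s j) j = s := by
      unfold inc dec
      funext k
      by_cases hk : k = j
      · subst hk
        simp only [Function.update_self]
        omega
      · simp [Function.update_of_ne hk]
    simp only [this]

/-- multiplication by `q(s)` -/
theorem fv_mul_q (a : ℤ) (q : MvPolynomial ι ℂ) : ∀ (F : PF σ ι), FV f a F →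
    FV f a (fun s => MvPowerSeries.C (eval (fun j => (s j : ℂ)) q) * F s) := by
  induction q using MvPolynomial.induction_on with
  | C c =>
    intro F h
    exact fv_congr (FV.mul a F (MvPowerSeries.C c) h) rfl (fun s => by simp)
  | add p q hp hq =>
    intro F h
    refine fv_congr (FV.add a _ _ (hp F h) (hq F h)) rfl (fun s => ?_)
    rw [map_add, map_add, add_mul]
  | mul_X p j hp =>
    intro F h
    refine fv_congr (hp _ (fv_mul_s a F j h)) rfl (fun s => ?_)
    simp only [map_mul, eval_X, map_natCast, mul_assoc]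

/-- differential operators -/
theorem fv_weyl (a : ℤ) (Q : Module.End ℂ (MvPolynomial σ ℂ))
    (hQ : Q ∈ Pool.Agent.H628R4.TP.weylS σ) : ∀ g : (ι → ℕ) → MvPolynomial σ ℂ,
    FV f a (fun s => (g s : MvPowerSeries σ ℂ)) →
    FV f a (fun s => ((Q (g s) : MvPolynomial σ ℂ) : MvPowerSeries σ ℂ)) := by
  unfold Pool.Agent.H628R4.TP.weylS at hQ
  induction hQ using Algebra.adjoin_induction with
  | mem Q hQ =>
    intro g h
    rcases hQ with ⟨i, rfl⟩ | ⟨i, rfl⟩
    · refine fv_congr (FV.mul a _ (MvPowerSeries.X i) h) rfl (fun s => ?_)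
      simp
    · refine fv_congr (FV.der a _ i h) rfl (fun s => ?_)
      exact (MvPowerSeries.pderiv_coe (g s))
  | algebraMap c =>
    intro g h
    refine fv_congr (FV.mul a _ (MvPowerSeries.C c) h) rfl (fun s => ?_)
    rw [Module.algebraMap_end_apply, MvPolynomial.smul_eq_C_mul, MvPolynomial.coe_mul, MvPolynomial.coe_C]
  | add P Q _ _ hP hQ =>
    intro g h
    refine fv_congr (FV.add a _ _ (hP g h) (hQ g h)) rfl (fun s => ?_)
    rw [LinearMap.add_apply, MvPolynomial.coe_add]
  | mul P Q _ _ hP hQ =>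
    intro g h
    exact hP _ (hQ g h)

/-- the functions `ψ_j` of the single exponents -/
theorem fv_up_iter (a : ℤ) (j : ι) (A : PF σ ι) (hA : ∀ s x, A (Function.update s j x) = A s)
    (φ : ℕ → MvPowerSeries σ ℂ) (h : FV f a (fun s => A s * φ (s j))) (n : ℕ) :
    FV f (a + n) (fun s => A s * φ (s j + n)) := by
  induction n with
  | zero => exact fv_congr h (by simp) (fun s => by simp)
  | succ n ih =>
    refine fv_congr (FV.up (a + n) _ j ih) (by push_cast; ring) (fun s => ?_)
    have e1 : A (inc s j) = A s := hA s _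
    have e2 : inc s j j = s j + 1 := by simp [inc]
    simp only [e1, e2]
    congr 2
    ring

theorem fv_down_iter (a : ℤ) (j : ι) (A : PF σ ι) (hA : ∀ s x, A (Function.update s j x) = A s)
    (φ : ℕ → MvPowerSeries σ ℂ) (h : FV f a (fun s => A s * φ (s j))) (n : ℕ) :
    FV f (a - n) (fun s => A s * (((s j).descFactorial n : MvPowerSeries σ ℂ) * φ (s j - n))) := by
  induction n with
  | zero => exact fv_congr h (by simp) (fun s => by simp)
  | succ n ih =>
    refine fv_congr (FV.down (a - n) _ j ih) (by push_cast; ring) (fun s => ?_)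
    have e1 : A (dec s j) = A s := hA s _
    have e2 : dec s j j = s j - 1 := by simp [dec]
    simp only [e1, e2]
    rcases hs : s j with _ | x
    · simp
    · rw [Nat.add_sub_cancel, Nat.succ_descFactorial_succ]
      have e3 : x + 1 - (n + 1) = x - n := by omega
      rw [e3]
      push_cast
      ring

theorem fv_step (a : ℤ) (j : ι) (A : PF σ ι) (hA : ∀ s x, A (Function.update s j x) = A s)
    (φ : ℕ → MvPowerSeries σ ℂ) (h : FV f a (fun s => A s * φ (s j))) (c : ℤ) :
    FV f (a + c) (fun s => A s * (((s j).choose (-c).toNat : MvPowerSeries σ ℂ) *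
      φ ((s j : ℤ) + c).toNat)) := by
  rcases le_or_gt 0 c with hc | hc
  · obtain ⟨n, rfl⟩ := Int.eq_ofNat_of_zero_le hc
    refine fv_congr (fv_up_iter a j A hA φ h n) rfl (fun s => ?_)
    have e1 : (-(n : ℤ)).toNat = 0 := by omega
    have e2 : ((s j : ℤ) + (n : ℤ)).toNat = s j + n := by omega
    rw [e1, e2]
    simp
  · obtain ⟨n, hn⟩ : ∃ n : ℕ, c = -(n : ℤ) := ⟨(-c).toNat, by omega⟩
    subst hn
    refine fv_congr (FV.mul _ _ (MvPowerSeries.C ((n.factorial : ℂ)⁻¹)) (fv_down_iter a j A hA φ h n))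
      (by ring) (fun s => ?_)
    have e1 : (-(-(n : ℤ))).toNat = n := by omega
    have e2 : ((s j : ℤ) + -(n : ℤ)).toNat = s j - n := by omega
    rw [e1, e2, Nat.descFactorial_eq_factorial_mul_choose]
    have e3 : (MvPowerSeries.C ((n.factorial : ℂ)⁻¹) : MvPowerSeries σ ℂ) *
        ((n.factorial : ℕ) : MvPowerSeries σ ℂ) = 1 := by
      rw [← map_natCast (MvPowerSeries.C (σ := σ) (R := ℂ)), ← map_mul, inv_mul_cancel₀
        (by exact_mod_cast Nat.factorial_ne_zero n), map_one]
    push_cast
    calc _ = (MvPowerSeries.C ((n.factorial : ℂ)⁻¹) * ((n.factorial : ℕ) : MvPowerSeries σ ℂ)) *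
          (A s * ((((s j).choose n : ℕ) : MvPowerSeries σ ℂ) * φ (s j - n))) := by ring
      _ = _ := by rw [e3, one_mul]

theorem fv_K (c : ι → ℤ) (T : Finset ι) :
    FV f (∑ j ∈ T, c j) (fun s => ∏ j, if j ∈ T then
      (((s j).choose (-(c j)).toNat : ℕ) : MvPowerSeries σ ℂ) * f j ^ ((s j : ℤ) + c j).toNat
      else f j ^ s j) := by
  induction T using Finset.induction_on with
  | empty => exact fv_congr FV.base (by simp) (fun s => by simp)
  | insert k T hk ih =>
    let A : PF σ ι := fun s => ∏ j ∈ Finset.univ.erase k, if j ∈ T then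
      (((s j).choose (-(c j)).toNat : ℕ) : MvPowerSeries σ ℂ) * f j ^ ((s j : ℤ) + c j).toNat
      else f j ^ s j
    have hA : ∀ s x, A (Function.update s k x) = A s := by
      intro s x
      refine Finset.prod_congr rfl (fun j hj => ?_)
      have hjk : j ≠ k := (Finset.mem_erase.1 hj).1
      simp only [Function.update_of_ne hjk]
    have h1 : FV f (∑ j ∈ T, c j) (fun s => A s * (fun x => f k ^ x) (s k)) := by
      refine fv_congr ih rfl (fun s => ?_)
      rw [← Finset.prod_erase_mul Finset.univ _ (Finset.mem_univ k), if_neg hk]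
    refine fv_congr (fv_step _ k A hA (fun x => f k ^ x) h1 (c k)) ?_ (fun s => ?_)
    · rw [Finset.sum_insert hk]; ring
    · rw [← Finset.prod_erase_mul Finset.univ _ (Finset.mem_univ k),
        if_pos (Finset.mem_insert_self k T)]
      congr 1
      refine Finset.prod_congr rfl (fun j hj => ?_)
      have hjk : j ≠ k := (Finset.mem_erase.1 hj).1
      by_cases hjT : j ∈ T
      · rw [if_pos hjT, if_pos (Finset.mem_insert_of_mem hjT)]
      · rw [if_neg hjT, if_neg (fun h => (Finset.mem_insert.1 h).elim hjk hjT)]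

end Pool.Agent.NH97.MM.T1

namespace Pool.Agent.NH97.MM

open MvPolynomial

theorem t_T1 : S_T1 := by
  intro σ ι _ _ _ f b hb
  obtain ⟨L, c, q, a, Q, hc, hs⟩ := hb
  unfold FE
  have hl : ∀ l : Fin L, FV (fun j => (f j : MvPowerSeries σ ℂ)) 1 (fun s =>
      MvPowerSeries.C (eval (fun j => (s j : ℂ)) (q l) * ∏ j, ((s j).choose (-(c l j)).toNat : ℂ)) *
          (a l * (((Q l : Module.End ℂ (MvPolynomial σ ℂ))
            (∏ j, f j ^ ((s j : ℤ) + c l j).toNat) : MvPolynomial σ ℂ) : MvPowerSeries σ ℂ))) := by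
    intro l
    have h1 := T1.fv_K (f := fun j => (f j : MvPowerSeries σ ℂ)) (c l) Finset.univ
    rw [hc l] at h1
    have h2 : FV (fun j => (f j : MvPowerSeries σ ℂ)) 1 (fun s =>
        ((C (∏ j, ((s j).choose (-(c l j)).toNat : ℂ)) * ∏ j, f j ^ ((s j : ℤ) + c l j).toNat :
          MvPolynomial σ ℂ) : MvPowerSeries σ ℂ)) := by
      refine T1.fv_congr h1 rfl (fun s => ?_)
      simp only [Finset.mem_univ, if_true, Finset.prod_mul_distrib]
      rw [MvPolynomial.coe_mul, MvPolynomial.coe_C, map_prod]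
      refine congrArg₂ (fun x y : MvPowerSeries σ ℂ => x * y) ?_ ?_
      · refine Finset.prod_congr rfl (fun j _ => ?_)
        rw [map_natCast]
      · rw [← MvPolynomial.coeToMvPowerSeries.ringHom_apply (φ := ∏ j, f j ^ ((s j : ℤ) + c l j).toNat),
          map_prod]
        refine Finset.prod_congr rfl (fun j _ => ?_)
        rw [map_pow, MvPolynomial.coeToMvPowerSeries.ringHom_apply]
    have h3 := T1.fv_weyl 1 (Q l) (Q l).2 _ h2
    have h4 := FV.mul 1 _ (a l) h3
    have h5 := T1.fv_mul_q 1 (q l) _ h4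
    refine T1.fv_congr h5 rfl (fun s => ?_)
    rw [← MvPolynomial.smul_eq_C_mul, map_smul, MvPolynomial.smul_eq_C_mul, MvPolynomial.coe_mul,
      MvPolynomial.coe_C, map_mul]
    ring
  refine T1.fv_congr (T1.fv_sum Finset.univ 1 _ (fun l _ => hl l)) rfl (fun s => ?_)
  rw [← hs s]
  congr 1
  rw [← MvPolynomial.coeToMvPowerSeries.ringHom_apply (φ := ∏ j, f j ^ s j), map_prod]
  refine Finset.prod_congr rfl (fun j _ => ?_)
  rw [map_pow, MvPolynomial.coeToMvPowerSeries.ringHom_apply]

end Pool.Agent.NH97.MM
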