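import Pool.Agent.NH97.MM.Stm

set_option autoImplicit false

/-! # MM-T2 (helper17): from `FE` to the explicit equation -/

namespace Pool.Agent.NH97.MM.T2

open MvPolynomial Pool.Agent.NH97.MM

section

variable {σ ι : Type} [Fintype ι]

/-- one term of the explicit equation -/
noncomputable def val (f : ι → MvPolynomial σ ℂ) (c : ι → ℤ) (q : MvPolynomial ι ℂ)
    (a : MvPowerSeries σ ℂ) (Q : Pool.Agent.H628R4.TP.weylS σ) : PF σ ι := fun s =>
  MvPowerSeries.C (eval (fun j => (s j : ℂ)) q * ∏ j, ((s j).choose (-(c j)).toNat : ℂ)) *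
    (a * (((Q : Module.End ℂ (MvPolynomial σ ℂ))
      (∏ j, f j ^ ((s j : ℤ) + c j).toNat) : MvPolynomial σ ℂ) : MvPowerSeries σ ℂ))

/-- the sums of terms of degree `a` -/
def G (f : ι → MvPolynomial σ ℂ) (d : ℤ) : AddSubmonoid (PF σ ι) :=
  AddSubmonoid.closure {F | ∃ c q a Q, ∑ j, c j = d ∧ F = val f c q a Q}

theorem val_mem (f : ι → MvPolynomial σ ℂ) (d : ℤ) (c : ι → ℤ) (q : MvPolynomial ι ℂ)
    (a : MvPowerSeries σ ℂ) (Q : Pool.Agent.H628R4.TP.weylS σ) (h : ∑ j, c j = d) :
    val f c q a Q ∈ G f d :=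
  AddSubmonoid.subset_closure ⟨c, q, a, Q, h, rfl⟩

theorem mem_mul (f : ι → MvPolynomial σ ℂ) (d : ℤ) (r : MvPowerSeries σ ℂ) (F : PF σ ι)
    (hF : F ∈ G f d) : (fun s => r * F s) ∈ G f d := by
  unfold G at hF
  induction hF using AddSubmonoid.closure_induction with
  | mem x hx =>
    obtain ⟨c, q, a, Q, h, rfl⟩ := hx
    have h1 : (fun s => r * val f c q a Q s) = val f c q (r * a) Q := by
      funext s
      unfold val
      ring
    rw [h1]
    exact val_mem f d c q _ Q h
  | zero =>
    have h1 : (fun s : ι → ℕ => r * (0 : PF σ ι) s) = 0 := by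
      funext s
      simp
    rw [h1]
    exact zero_mem _
  | add x y _ _ hx hy =>
    have h1 : (fun s : ι → ℕ => r * (x + y) s) = (fun s => r * x s) + fun s => r * y s := by
      funext s
      simp [mul_add]
    rw [h1]
    exact add_mem hx hy

theorem mem_der (f : ι → MvPolynomial σ ℂ) (d : ℤ) (i : σ) (F : PF σ ι)
    (hF : F ∈ G f d) : (fun s => MvPowerSeries.pderiv ℂ i (F s)) ∈ G f d := by
  unfold G at hF
  induction hF using AddSubmonoid.closure_induction with
  | mem x hx =>
    obtain ⟨c, q, a, Q, h, rfl⟩ := hx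
    let D : Pool.Agent.H628R4.TP.weylS σ :=
      ⟨((pderiv i : Derivation ℂ (MvPolynomial σ ℂ) (MvPolynomial σ ℂ)) :
        MvPolynomial σ ℂ →ₗ[ℂ] MvPolynomial σ ℂ),
        Algebra.subset_adjoin (Or.inr ⟨i, rfl⟩)⟩
    have h1 : (fun s => MvPowerSeries.pderiv ℂ i (val f c q a Q s)) =
        val f c q (MvPowerSeries.pderiv ℂ i a) Q + val f c q a (D * Q) := by
      funext s
      have h2 : ((D * Q : Pool.Agent.H628R4.TP.weylS σ) : Module.End ℂ (MvPolynomial σ ℂ))
          (∏ j, f j ^ ((s j : ℤ) + c j).toNat) =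
          pderiv i ((Q : Module.End ℂ (MvPolynomial σ ℂ))
            (∏ j, f j ^ ((s j : ℤ) + c j).toNat)) := rfl
      rw [Pi.add_apply]
      unfold val
      rw [h2, Derivation.leibniz, MvPowerSeries.pderiv_C, Derivation.leibniz,
        MvPowerSeries.pderiv_coe]
      simp only [smul_eq_mul, smul_zero, add_zero]
      ring
    rw [h1]
    exact add_mem (val_mem f d c q _ _ h) (val_mem f d c q _ _ h)
  | zero =>
    have h1 : (fun s : ι → ℕ => MvPowerSeries.pderiv ℂ i ((0 : PF σ ι) s)) = 0 := by
      funext s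
      simp
    rw [h1]
    exact zero_mem _
  | add x y _ _ hx hy =>
    have h1 : (fun s : ι → ℕ => MvPowerSeries.pderiv ℂ i ((x + y) s)) =
        (fun s => MvPowerSeries.pderiv ℂ i (x s)) + fun s => MvPowerSeries.pderiv ℂ i (y s) := by
      funext s
      simp
    rw [h1]
    exact add_mem hx hy

end

section

variable {σ ι : Type} [Fintype ι] [DecidableEq ι]

/-- the substitution `X_j ↦ X_j + δ` -/
noncomputable def sh (δ : ℂ) (j : ι) (q : MvPolynomial ι ℂ) : MvPolynomial ι ℂ :=
  aeval (fun i => if i = j then X j + C δ else (X i : MvPolynomial ι ℂ)) q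

theorem eval_sh (δ : ℂ) (j : ι) (q : MvPolynomial ι ℂ) (x y : ι → ℂ)
    (h1 : y j = x j + δ) (h2 : ∀ i, i ≠ j → y i = x i) : eval x (sh δ j q) = eval y q := by
  unfold sh
  induction q using MvPolynomial.induction_on with
  | C a => simp
  | add p q hp hq => simp only [map_add, hp, hq]
  | mul_X p i hp =>
    rw [map_mul, map_mul, map_mul, hp, aeval_X, eval_X]
    congr 1
    by_cases hi : i = j
    · subst hi
      simp [h1]
    · simp [hi, h2 i hi]

theorem sum_update (c : ι → ℤ) (j : ι) (z : ℤ) :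
    ∑ i, Function.update c j z i = ∑ i, c i - c j + z := by
  rw [Finset.sum_update_of_mem (Finset.mem_univ j)]
  have h := Finset.add_sum_erase Finset.univ c (Finset.mem_univ j)
  rw [Finset.sdiff_singleton_eq_erase]
  linarith

theorem mem_up (f : ι → MvPolynomial σ ℂ) (d : ℤ) (j : ι) (F : PF σ ι)
    (hF : F ∈ G f d) : (fun s => F (inc s j)) ∈ G f (d + 1) := by
  unfold G at hF
  induction hF using AddSubmonoid.closure_induction with
  | mem x hx =>
    obtain ⟨c, q, a, Q, h, rfl⟩ := hx
    set c' : ι → ℤ := Function.update c j (c j + 1) with hc'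
    have hc1 : c' j = c j + 1 := by simp [hc']
    have hc2 : ∀ i, i ≠ j → c' i = c i := fun i hi => by simp [hc', hi]
    have hi1 : ∀ s : ι → ℕ, inc s j j = s j + 1 := fun s => by simp [inc]
    have hi2 : ∀ (s : ι → ℕ) (i : ι), i ≠ j → inc s j i = s i := fun s i hi => by simp [inc, hi]
    obtain ⟨q', hq'⟩ : ∃ q' : MvPolynomial ι ℂ, ∀ s : ι → ℕ,
        eval (fun i => (inc s j i : ℂ)) q * ((inc s j j).choose (-(c j)).toNat : ℂ) =
          eval (fun i => (s i : ℂ)) q' * ((s j).choose (-(c' j)).toNat : ℂ) := by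
      have hev : ∀ s : ι → ℕ, eval (fun i => (s i : ℂ)) (sh 1 j q) =
          eval (fun i => (inc s j i : ℂ)) q := by
        intro s
        refine eval_sh 1 j q _ _ ?_ ?_
        · simp [hi1]
        · intro i hi
          simp [hi2 s i hi]
      rcases le_or_gt 0 (c j) with h0 | h0
      · refine ⟨sh 1 j q, fun s => ?_⟩
        have e1 : (-(c j)).toNat = 0 := by omega
        have e2 : (-(c' j)).toNat = 0 := by rw [hc1]; omega
        rw [hev, e1, e2]
        simp
      · obtain ⟨m, hm⟩ : ∃ m : ℕ, c j = -((m : ℤ) + 1) := ⟨(-(c j)).toNat - 1, by omega⟩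
        refine ⟨C (1 / ((m : ℂ) + 1)) * ((X j + C 1) * sh 1 j q), fun s => ?_⟩
        have e1 : (-(c j)).toNat = m + 1 := by omega
        have e2 : (-(c' j)).toNat = m := by rw [hc1]; omega
        have hm0 : ((m : ℂ) + 1) ≠ 0 := by exact_mod_cast Nat.succ_ne_zero m
        have h3 : ((s j : ℂ) + 1) * ((s j).choose m : ℂ) =
            ((s j + 1).choose (m + 1) : ℂ) * ((m : ℂ) + 1) := by
          exact_mod_cast Nat.add_one_mul_choose_eq (s j) m
        rw [e1, e2, hi1]
        simp only [map_mul, map_add, eval_C, eval_X, hev]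
        field_simp
        linear_combination (-(eval (fun i => (inc s j i : ℂ)) q)) * h3
    have h1 : (fun s => val f c q a Q (inc s j)) = val f c' q' a Q := by
      funext s
      unfold val
      have e1 : ∏ i, f i ^ ((inc s j i : ℤ) + c i).toNat =
          ∏ i, f i ^ ((s i : ℤ) + c' i).toNat := by
        refine Finset.prod_congr rfl fun i _ => ?_
        by_cases hi : i = j
        · subst hi
          rw [hi1, hc1]
          congr 2
          push_cast
          ring
        · rw [hi2 s i hi, hc2 i hi]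
      have e2 : eval (fun i => (inc s j i : ℂ)) q * ∏ i, ((inc s j i).choose (-(c i)).toNat : ℂ) =
          eval (fun i => (s i : ℂ)) q' * ∏ i, ((s i).choose (-(c' i)).toNat : ℂ) := by
        rw [← Finset.mul_prod_erase Finset.univ
            (fun i => ((inc s j i).choose (-(c i)).toNat : ℂ)) (Finset.mem_univ j),
          ← Finset.mul_prod_erase Finset.univ
            (fun i => ((s i).choose (-(c' i)).toNat : ℂ)) (Finset.mem_univ j),
          ← mul_assoc, ← mul_assoc, hq' s]
        congr 1
        refine Finset.prod_congr rfl fun i hi => ?_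
        have hi' := Finset.ne_of_mem_erase hi
        rw [hi2 s i hi', hc2 i hi']
      rw [e1, e2]
    rw [h1]
    refine val_mem f (d + 1) c' q' a Q ?_
    rw [hc', sum_update, h]
    ring
  | zero => exact zero_mem _
  | add x y _ _ hx hy => exact add_mem hx hy

theorem mem_down (f : ι → MvPolynomial σ ℂ) (d : ℤ) (j : ι) (F : PF σ ι)
    (hF : F ∈ G f d) :
    (fun s => (s j : MvPowerSeries σ ℂ) * F (dec s j)) ∈ G f (d - 1) := by
  unfold G at hF
  induction hF using AddSubmonoid.closure_induction with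
  | mem x hx =>
    obtain ⟨c, q, a, Q, h, rfl⟩ := hx
    set c' : ι → ℤ := Function.update c j (c j - 1) with hc'
    have hc1 : c' j = c j - 1 := by simp [hc']
    have hc2 : ∀ i, i ≠ j → c' i = c i := fun i hi => by simp [hc', hi]
    have hi1 : ∀ s : ι → ℕ, dec s j j = s j - 1 := fun s => by simp [dec]
    have hi2 : ∀ (s : ι → ℕ) (i : ι), i ≠ j → dec s j i = s i := fun s i hi => by simp [dec, hi]
    obtain ⟨q', hq'⟩ : ∃ q' : MvPolynomial ι ℂ, ∀ s : ι → ℕ,
        (s j : ℂ) * (eval (fun i => (dec s j i : ℂ)) q *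
          ((dec s j j).choose (-(c j)).toNat : ℂ)) =
          eval (fun i => (s i : ℂ)) q' * ((s j).choose (-(c' j)).toNat : ℂ) := by
      have hev : ∀ s : ι → ℕ, s j ≠ 0 → eval (fun i => (s i : ℂ)) (sh (-1) j q) =
          eval (fun i => (dec s j i : ℂ)) q := by
        intro s hs
        refine eval_sh (-1) j q _ _ ?_ ?_
        · rw [hi1, Nat.cast_sub (by omega)]
          push_cast
          ring
        · intro i hi
          simp [hi2 s i hi]
      rcases lt_or_ge 0 (c j) with h0 | h0
      · refine ⟨X j * sh (-1) j q, fun s => ?_⟩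
        have e1 : (-(c j)).toNat = 0 := by omega
        have e2 : (-(c' j)).toNat = 0 := by rw [hc1]; omega
        rw [e1, e2]
        by_cases hs : s j = 0
        · simp [hs]
        · simp only [map_mul, eval_X, hev s hs, Nat.choose_zero_right, Nat.cast_one, mul_one]
      · obtain ⟨m, hm⟩ : ∃ m : ℕ, c j = -(m : ℤ) := ⟨(-(c j)).toNat, by omega⟩
        refine ⟨C ((m : ℂ) + 1) * sh (-1) j q, fun s => ?_⟩
        have e1 : (-(c j)).toNat = m := by omega
        have e2 : (-(c' j)).toNat = m + 1 := by rw [hc1]; omega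
        rw [e1, e2, hi1]
        by_cases hs : s j = 0
        · simp [hs]
        · obtain ⟨t, ht⟩ : ∃ t, s j = t + 1 := ⟨s j - 1, by omega⟩
          have h3 : ((t : ℂ) + 1) * (t.choose m : ℂ) =
              ((t + 1).choose (m + 1) : ℂ) * ((m : ℂ) + 1) := by
            exact_mod_cast Nat.add_one_mul_choose_eq t m
          simp only [map_mul, eval_C, hev s hs]
          rw [ht]
          simp only [Nat.add_sub_cancel, Nat.cast_add, Nat.cast_one]
          linear_combination (eval (fun i => (dec s j i : ℂ)) q) * h3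
    have h1 : (fun s => (s j : MvPowerSeries σ ℂ) * val f c q a Q (dec s j)) =
        val f c' q' a Q := by
      funext s
      unfold val
      have e2 : (s j : ℂ) * (eval (fun i => (dec s j i : ℂ)) q *
          ∏ i, ((dec s j i).choose (-(c i)).toNat : ℂ)) =
          eval (fun i => (s i : ℂ)) q' * ∏ i, ((s i).choose (-(c' i)).toNat : ℂ) := by
        rw [← Finset.mul_prod_erase Finset.univ
            (fun i => ((dec s j i).choose (-(c i)).toNat : ℂ)) (Finset.mem_univ j),
          ← Finset.mul_prod_erase Finset.univ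
            (fun i => ((s i).choose (-(c' i)).toNat : ℂ)) (Finset.mem_univ j),
          ← mul_assoc, ← mul_assoc, ← mul_assoc, ← hq' s, ← mul_assoc]
        congr 1
        refine Finset.prod_congr rfl fun i hi => ?_
        have hi' := Finset.ne_of_mem_erase hi
        rw [hi2 s i hi', hc2 i hi']
      have e3 : (s j : MvPowerSeries σ ℂ) = MvPowerSeries.C (s j : ℂ) := by simp
      by_cases hs : s j = 0
      · rw [← e2, hs]
        simp
      · have e1 : ∏ i, f i ^ ((dec s j i : ℤ) + c i).toNat =
            ∏ i, f i ^ ((s i : ℤ) + c' i).toNat := by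
          refine Finset.prod_congr rfl fun i _ => ?_
          by_cases hi : i = j
          · subst hi
            rw [hi1, hc1]
            congr 2
            omega
          · rw [hi2 s i hi, hc2 i hi]
        rw [e1, ← e2, e3, ← mul_assoc, ← RingHom.map_mul MvPowerSeries.C]
    rw [h1]
    refine val_mem f (d - 1) c' q' a Q ?_
    rw [hc', sum_update, h]
    ring
  | zero =>
    have h1 : (fun s : ι → ℕ => (s j : MvPowerSeries σ ℂ) * (0 : PF σ ι) (dec s j)) = 0 := by
      funext s
      simp
    rw [h1]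
    exact zero_mem _
  | add x y _ _ hx hy =>
    have h1 : (fun s : ι → ℕ => (s j : MvPowerSeries σ ℂ) * (x + y) (dec s j)) =
        (fun s => (s j : MvPowerSeries σ ℂ) * x (dec s j)) +
          fun s => (s j : MvPowerSeries σ ℂ) * y (dec s j) := by
      funext s
      simp [mul_add]
    rw [h1]
    exact add_mem hx hy

theorem coe_prod_pow (f : ι → MvPolynomial σ ℂ) (s : ι → ℕ) :
    ((∏ j, f j ^ s j : MvPolynomial σ ℂ) : MvPowerSeries σ ℂ) =
      ∏ j, (f j : MvPowerSeries σ ℂ) ^ s j := by
  have h := map_prod (MvPolynomial.coeToMvPowerSeries.ringHom (σ := σ) (R := ℂ))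
    (fun j => f j ^ s j) Finset.univ
  simpa only [MvPolynomial.coeToMvPowerSeries.ringHom_apply, MvPolynomial.coe_pow] using h

theorem mem_G (f : ι → MvPolynomial σ ℂ) (d : ℤ) (F : PF σ ι)
    (hF : FV (fun j => (f j : MvPowerSeries σ ℂ)) d F) : F ∈ G f d := by
  induction hF with
  | base =>
    have h1 : (fun s : ι → ℕ => ∏ j, (f j : MvPowerSeries σ ℂ) ^ s j) =
        val f (fun _ => 0) 1 1 1 := by
      funext s
      unfold val
      have h2 : (((1 : Pool.Agent.H628R4.TP.weylS σ) : Module.End ℂ (MvPolynomial σ ℂ))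
          (∏ j, f j ^ ((s j : ℤ) + 0).toNat)) = ∏ j, f j ^ s j := by
        simp
      rw [h2, coe_prod_pow]
      simp
    rw [h1]
    exact val_mem f 0 _ _ _ _ (by simp)
  | zero a => exact zero_mem _
  | add a F G _ _ hF hG => exact add_mem hF hG
  | mul a F r _ hF => exact mem_mul f a r F hF
  | der a F i _ hF => exact mem_der f a i F hF
  | up a F j _ hF => exact mem_up f a j F hF
  | down a F j _ hF => exact mem_down f a j F hF

end

end Pool.Agent.NH97.MM.T2

namespace Pool.Agent.NH97.MM

open MvPolynomial T2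

theorem t_T2 : S_T2 := by
  intro σ ι _ _ _ f b hb
  have h1 := mem_G f 1 _ hb
  obtain ⟨l, hl, hsum⟩ := AddSubmonoid.exists_list_of_mem_closure h1
  have h2 : ∀ i : Fin l.length, ∃ c q a Q, ∑ j, c j = (1 : ℤ) ∧ l[i.1] = val f c q a Q :=
    fun i => hl _ (List.getElem_mem _)
  choose c q a Q hc hv using h2
  refine ⟨l.length, c, q, a, Q, hc, fun s => ?_⟩
  have h3 := congrFun hsum s
  rw [coe_prod_pow, ← h3, ← Fin.sum_univ_getElem, Finset.sum_apply]
  refine Finset.sum_congr rfl fun i _ => ?_
  rw [hv i]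
  rfl

end Pool.Agent.NH97.MM
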