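import Pool.Agent.W574.CN.Gen
import Pool.Agent.W574.LM.Core

set_option autoImplicit false
set_option linter.unusedSectionVars false
set_option linter.unusedVariables false

/-! # The root `-(n + 1) / a` for an ideal of order `a` with algebraically independent initial
forms, local functional equations -/

namespace Pool.Agent.NH97.MM

open Pool.Agent.W574.SM Pool.Agent.W574.CN Pool.Agent.W574.LM

section Gen

variable {n : ℕ} {ι : Type} [Fintype ι] [DecidableEq ι]

theorem dvd_aeval_of_order (p : Fin (n + 1) → ℂ) (m : ℕ) (q : MvPolynomial (Fin (n + 1)) ℂ)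
    (hq : ∀ k < m, MvPolynomial.homogeneousComponent k q = 0) :
    (MvPowerSeries.X 0 : MvPowerSeries (Fin (n + 1)) ℂ) ^ m ∣
      MvPolynomial.aeval (fun t => (MvPowerSeries.X 0 : MvPowerSeries (Fin (n + 1)) ℂ) * pt p t) q := by
  classical
  conv_rhs => rw [← MvPolynomial.sum_homogeneousComponent q]
  rw [map_sum]
  refine Finset.dvd_sum fun k _ => ?_
  by_cases hk : k < m
  · rw [hq k hk, map_zero]
    exact dvd_zero _
  · rw [aeval_mul_homog (pt p) (MvPowerSeries.X 0) _ k
      (MvPolynomial.homogeneousComponent_isHomogeneous k q)]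
    exact dvd_mul_of_dvd_left (pow_dvd_pow _ (by omega)) _

theorem det_quot' (d : ℕ) (g : Fin (n + 1) → MvPolynomial (Fin (n + 1)) ℂ)
    (hg : ∀ t, (g t).IsHomogeneous d) (p : Fin (n + 1) → ℂ) (hp0 : p 0 ≠ 0)
    (hdet : (Matrix.of fun s t => MvPolynomial.eval p (MvPolynomial.pderiv s (g t))).det ≠ 0)
    (W : Matrix (Fin (n + 1)) (Fin (n + 1)) ℂ) (hW0 : ∀ s, W s 0 = if s = 0 then 1 else 0)
    (hW1 : ∀ s t, t ≠ 0 → s ≠ 0 → W s t * MvPolynomial.eval p (g 0) ^ 2 =
      MvPolynomial.eval p (MvPolynomial.pderiv s (g t)) * MvPolynomial.eval p (g 0) -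
        MvPolynomial.eval p (g t) * MvPolynomial.eval p (MvPolynomial.pderiv s (g 0)))
    (hg0 : MvPolynomial.eval p (g 0) ≠ 0) : W.det ≠ 0 := by
  classical
  set W' : Matrix (Fin (n + 1)) (Fin (n + 1)) ℂ := Matrix.of fun s t =>
    if s = 0 then (if t = 0 then 1 else 0) else W s t with hW'
  have h1 : W'.det ≠ 0 := by
    refine det_quot d g hg p hp0 hdet W' (fun s => ?_) (fun s t ht hs => ?_) (fun t ht => ?_) hg0
    · rw [hW', Matrix.of_apply]
      by_cases hs : s = 0
      · rw [if_pos hs, if_pos rfl, if_pos hs]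
      · rw [if_neg hs, hW0]
    · rw [hW', Matrix.of_apply, if_neg hs]
      exact hW1 s t ht hs
    · rw [hW', Matrix.of_apply, if_pos rfl, if_neg ht]
  have h2 : W.det = W'.det := by
    rw [Matrix.det_succ_column_zero, Matrix.det_succ_column_zero]
    refine Finset.sum_congr rfl fun i _ => ?_
    by_cases hi : i = 0
    · subst hi
      have e1 : W' 0 0 = W 0 0 := by rw [hW0, if_pos rfl, hW']; simp
      have e2 : W.submatrix (Fin.succAbove 0) Fin.succ =
          W'.submatrix (Fin.succAbove 0) Fin.succ := by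
        ext s t
        rw [Matrix.submatrix_apply, Matrix.submatrix_apply, hW', Matrix.of_apply,
          if_neg (Fin.succAbove_ne 0 s)]
      rw [e1, e2]
    · have e1 : W i 0 = 0 := by rw [hW0, if_neg hi]
      have e2 : W' i 0 = 0 := by rw [hW', Matrix.of_apply, if_neg hi, e1]
      rw [e1, e2]
      ring
  rw [h2]
  exact h1

theorem fat_root_aux (f : ι → MvPolynomial (Fin (n + 1)) ℂ) (d : ℕ) (hd : 0 < d)
    (hf : ∀ j, ∀ k < d, MvPolynomial.homogeneousComponent k (f j) = 0)
    (b : Polynomial ℂ) (H : MvPolynomial (Fin (n + 1)) ℂ) (hb : IsLocEq H f b)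
    (hH : MvPolynomial.eval 0 H ≠ 0)
    (e : Fin (n + 1) → ι) (p : Fin (n + 1) → ℂ) (hp0 : p 0 ≠ 0)
    (hdet : (Matrix.of fun s t => MvPolynomial.eval p (MvPolynomial.pderiv s
      (MvPolynomial.homogeneousComponent d (f (e t))))).det ≠ 0)
    (hg0 : MvPolynomial.eval p (MvPolynomial.homogeneousComponent d (f (e 0))) ≠ 0) :
    b.eval (-((n : ℂ) + 1) / d) = 0 := by
  classical
  set A := pt p with hA
  set F : ι → MvPolynomial (Fin (n + 1)) ℂ := fun j =>
    MvPolynomial.homogeneousComponent d (f j) with hF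
  have hFh : ∀ j, (F j).IsHomogeneous d := fun j =>
    MvPolynomial.homogeneousComponent_isHomogeneous d _
  set ζ : Fin (n + 1) → MvPowerSeries (Fin (n + 1)) ℂ := fun t => MvPowerSeries.X 0 * A t with hζ
  have hrest : ∀ j, ∃ R : MvPowerSeries (Fin (n + 1)) ℂ,
      MvPolynomial.aeval ζ (f j - F j) = MvPowerSeries.X 0 ^ (d + 1) * R := by
    intro j
    refine dvd_aeval_of_order p (d + 1) (f j - F j) fun k hk => ?_
    rw [map_sub, hF]
    simp only
    rcases Nat.lt_succ_iff_lt_or_eq.1 hk with h | h
    · rw [hf j k h, MvPolynomial.homogeneousComponent_of_mem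
        (MvPolynomial.homogeneousComponent_isHomogeneous d _), if_neg (by omega), sub_zero]
    · rw [h, MvPolynomial.homogeneousComponent_of_mem
        (MvPolynomial.homogeneousComponent_isHomogeneous d _), if_pos rfl, sub_self]
  choose R hR using hrest
  set g : ι → MvPowerSeries (Fin (n + 1)) ℂ := fun j =>
    MvPolynomial.aeval A (F j) + MvPowerSeries.X 0 * R j with hg
  have hζa : ∀ j, MvPolynomial.aeval ζ (f j) = MvPowerSeries.X 0 ^ d * g j := by
    intro j
    have h1 : f j = F j + (f j - F j) := by ring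
    rw [h1, map_add, hR, aeval_mul_homog A (MvPowerSeries.X 0) (F j) d (hFh j), hg]
    ring
  have hgc : ∀ j, MvPowerSeries.constantCoeff (g j) = MvPolynomial.eval p (F j) := by
    intro j
    rw [hg]
    simp only
    rw [map_add, map_mul, MvPowerSeries.constantCoeff_X, zero_mul, add_zero, constCoeff_aeval, hA,
      cc_pt]
  have hgd : ∀ (s : Fin (n + 1)) j, s ≠ 0 →
      MvPowerSeries.constantCoeff (MvPowerSeries.pderiv ℂ s (g j)) =
        MvPolynomial.eval p (MvPolynomial.pderiv s (F j)) := by
    intro s j hs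
    rw [hg]
    simp only
    rw [map_add, Derivation.leibniz, MvPowerSeries.pderiv_X_of_ne (Ne.symm hs), smul_zero,
      add_zero, map_add, smul_eq_mul, map_mul, MvPowerSeries.constantCoeff_X, zero_mul, add_zero,
      pderiv_aeval, hA]
    simp only [pderiv_pt]
    rw [Finset.sum_eq_single s]
    · rw [if_neg hs, if_pos rfl, mul_one, constCoeff_aeval, cc_pt]
    · intro t _ hts
      by_cases ht : t = 0
      · rw [if_pos ht, mul_zero]
      · rw [if_neg ht, if_neg (Ne.symm hts), mul_zero]
    · intro h; exact absurd (Finset.mem_univ s) h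
  set U1 := g (e 0) with hU1
  have hU1c : MvPowerSeries.constantCoeff U1 ≠ 0 := by rw [hU1, hgc]; exact hg0
  have hU1i : U1⁻¹ * U1 = 1 := MvPowerSeries.inv_mul_cancel U1 hU1c
  set lam : Fin (n + 1) → ℂ := fun t =>
    MvPolynomial.eval p (F (e t)) / MvPolynomial.eval p (F (e 0)) with hlam
  set N : Fin (n + 1) → MvPowerSeries (Fin (n + 1)) ℂ := fun t => g (e t) - lam t • U1 with hN
  have hNc : ∀ t, MvPowerSeries.constantCoeff (N t) = 0 := by
    intro t
    rw [hN]
    simp only
    rw [map_sub, hU1, hgc, MvPowerSeries.smul_eq_C_mul, map_mul, MvPowerSeries.constantCoeff_C,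
      hgc, hlam]
    simp only
    rw [div_mul_cancel₀ _ hg0, sub_self]
  set w : Fin (n + 1) → MvPowerSeries (Fin (n + 1)) ℂ := fun t =>
    if t = 0 then MvPowerSeries.X 0 else N t * U1⁻¹ with hw
  have hw0 : w 0 = MvPowerSeries.X 0 := if_pos rfl
  have hw1 : ∀ t, t ≠ 0 → w t = N t * U1⁻¹ := by
    intro t ht
    rw [hw]; simp only; rw [if_neg ht]
  have hwU : ∀ t, t ≠ 0 → U1 * w t = N t := by
    intro t ht
    rw [hw1 t ht]
    linear_combination N t * hU1i
  have hwc : ∀ t, MvPowerSeries.constantCoeff (w t) = 0 := by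
    intro t
    by_cases ht : t = 0
    · rw [ht, hw0, MvPowerSeries.constantCoeff_X]
    · rw [hw1 t ht, map_mul, hNc, zero_mul]
  have hwd : ∀ s t, t ≠ 0 → MvPolynomial.eval p (F (e 0)) *
      MvPowerSeries.constantCoeff (MvPowerSeries.pderiv ℂ s (w t)) =
      MvPowerSeries.constantCoeff (MvPowerSeries.pderiv ℂ s (N t)) := by
    intro s t ht
    have h1 : MvPowerSeries.constantCoeff (MvPowerSeries.pderiv ℂ s (U1 * w t)) =
        MvPowerSeries.constantCoeff (MvPowerSeries.pderiv ℂ s (N t)) := by rw [hwU t ht]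
    rw [Derivation.leibniz, smul_eq_mul, smul_eq_mul, map_add, map_mul
      MvPowerSeries.constantCoeff, map_mul MvPowerSeries.constantCoeff, hwc, zero_mul, add_zero,
      hU1, hgc] at h1
    exact h1
  have hHc : MvPowerSeries.constantCoeff (MvPolynomial.aeval ζ H) ≠ 0 := by
    rw [constCoeff_aeval]
    have h1 : (fun i => MvPowerSeries.constantCoeff (ζ i)) = 0 := by
      funext i
      rw [hζ]
      simp only
      rw [map_mul, MvPowerSeries.constantCoeff_X, zero_mul]
      rfl
    rw [h1]
    exact hH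
  have hres := rees_coordsL f b H hb 0 ζ hHc n d 0 hd (MvPowerSeries.C (p 0)) U1 1
    (by rw [MvPowerSeries.constantCoeff_C]; exact hp0) hU1c (by simp) (det_cone p) (e 0)
    (fun j => ⟨g j, hζa j⟩) (hζa _) 1 (by simp) w hw0 hwc (by
      refine det_quot' d (fun t => F (e t)) (fun t => hFh _) p hp0 hdet _ ?_ ?_ hg0
      · intro s
        rw [Matrix.of_apply, hw0]
        by_cases hs : s = 0
        · rw [if_pos hs, hs, MvPowerSeries.pderiv_X_self, map_one]
        · rw [if_neg hs, MvPowerSeries.pderiv_X_of_ne (Ne.symm hs), map_zero]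
      · intro s t ht hs
        rw [Matrix.of_apply]
        have h1 := hwd s t ht
        have h2 : MvPowerSeries.constantCoeff (MvPowerSeries.pderiv ℂ s (N t)) =
            MvPolynomial.eval p (MvPolynomial.pderiv s (F (e t))) -
              lam t * MvPolynomial.eval p (MvPolynomial.pderiv s (F (e 0))) := by
          rw [hN]
          simp only
          rw [map_sub, Derivation.map_smul, hU1, map_sub, hgd s _ hs,
            MvPowerSeries.smul_eq_C_mul, map_mul MvPowerSeries.constantCoeff,
            MvPowerSeries.constantCoeff_C, hgd s _ hs]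
        rw [h2] at h1
        have h3 : lam t * MvPolynomial.eval p (F (e 0)) = MvPolynomial.eval p (F (e t)) := by
          rw [hlam]
          simp only
          rw [div_mul_cancel₀ _ hg0]
        linear_combination MvPolynomial.eval p (F (e 0)) * h1 -
          MvPolynomial.eval p (MvPolynomial.pderiv s (F (e 0))) * h3) (by
      intro t ht
      right
      refine ⟨Pi.single (e t) 1 - lam t • Pi.single (e 0) 1, ?_⟩
      have h1 : ∀ (h : ι → MvPowerSeries (Fin (n + 1)) ℂ) (i j : ι) (c : ℂ),
          ∑ k, ((Pi.single i 1 : ι → ℂ) - c • (Pi.single j 1 : ι → ℂ)) k • h k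
            = h i - c • h j := by
        intro h i j c
        simp only [Pi.sub_apply, Pi.smul_apply, sub_smul, Finset.sum_sub_distrib]
        congr 1
        · rw [Finset.sum_eq_single i]
          · simp
          · intro k _ hk; rw [Pi.single_eq_of_ne hk, zero_smul]
          · intro h; exact absurd (Finset.mem_univ i) h
        · rw [Finset.sum_eq_single j]
          · simp
          · intro k _ hk; rw [Pi.single_eq_of_ne hk, smul_zero, zero_smul]
          · intro h; exact absurd (Finset.mem_univ j) h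
      rw [h1, hζa, hζa, mul_assoc]
      have h2 := hwU t ht
      rw [hU1] at h2
      rw [h2, hN]
      simp only
      rw [mul_sub, mul_smul_comm])
  have hn' : -((n : ℂ) + 1 + (0 : ℕ)) = -((n : ℂ) + 1) := by push_cast; ring
  rwa [hn'] at hres

/-- **The root `-(n + 1) / d`**, for an ideal of order `d` in `n + 1` variables, of which `n + 1`
initial forms of degree `d` are algebraically independent. -/
theorem fat_root (f : ι → MvPolynomial (Fin (n + 1)) ℂ) (d : ℕ) (hd : 0 < d)
    (hf : ∀ j, ∀ k < d, MvPolynomial.homogeneousComponent k (f j) = 0)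
    (b : Polynomial ℂ) (H : MvPolynomial (Fin (n + 1)) ℂ) (hb : IsLocEq H f b)
    (hH : MvPolynomial.eval 0 H ≠ 0)
    (e : Fin (n + 1) → ι)
    (hdet : (Matrix.of fun s t => MvPolynomial.pderiv s
      (MvPolynomial.homogeneousComponent d (f (e t)))).det ≠ 0) :
    b.eval (-((n : ℂ) + 1) / d) = 0 := by
  classical
  set F : ι → MvPolynomial (Fin (n + 1)) ℂ := fun j =>
    MvPolynomial.homogeneousComponent d (f j) with hF
  have hFh : ∀ j, (F j).IsHomogeneous d := fun j =>
    MvPolynomial.homogeneousComponent_isHomogeneous d _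
  have h1 : MvPolynomial.X 0 *
      (Matrix.of fun s t => MvPolynomial.pderiv s (F (e t))).det ≠ 0 :=
    mul_ne_zero (MvPolynomial.X_ne_zero 0) hdet
  obtain ⟨p, hp⟩ : ∃ p, MvPolynomial.eval p (MvPolynomial.X 0 *
      (Matrix.of fun s t => MvPolynomial.pderiv s (F (e t))).det) ≠ 0 := by
    by_contra hne
    push Not at hne
    exact h1 (MvPolynomial.funext fun p => by rw [hne p, map_zero])
  rw [map_mul, MvPolynomial.eval_X] at hp
  have hp0 := left_ne_zero_of_mul hp
  have hp1 := right_ne_zero_of_mul hp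
  have hmap : ∀ e' : Fin (n + 1) → ι, MvPolynomial.eval p
      (Matrix.of fun s t => MvPolynomial.pderiv s (F (e' t))).det =
      (Matrix.of fun s t => MvPolynomial.eval p (MvPolynomial.pderiv s (F (e' t)))).det := by
    intro e'
    rw [RingHom.map_det]
    rfl
  rw [hmap] at hp1
  -- one of the forms does not vanish at the point
  obtain ⟨t0, ht0⟩ : ∃ t, MvPolynomial.eval p (F (e t)) ≠ 0 := by
    by_contra hne
    push Not at hne
    apply hp1
    rw [← Matrix.exists_vecMul_eq_zero_iff]
    refine ⟨p, fun h => hp0 (by rw [h]; rfl), ?_⟩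
    funext t
    have h2 := congrArg (MvPolynomial.eval p) (hFh (e t)).sum_X_mul_pderiv
    rw [map_sum, map_nsmul, hne, smul_zero] at h2
    change ∑ s, p s * MvPolynomial.eval p (MvPolynomial.pderiv s (F (e t))) = 0
    rw [← h2]
    refine Finset.sum_congr rfl fun s _ => ?_
    rw [map_mul, MvPolynomial.eval_X]
  refine fat_root_aux f d hd hf b H hb hH (e ∘ Equiv.swap 0 t0) p hp0 ?_ ?_
  · have h2 : (Matrix.of fun s t => MvPolynomial.eval p (MvPolynomial.pderiv s
        (F ((e ∘ Equiv.swap 0 t0) t)))) = (Matrix.of fun s t => MvPolynomial.eval p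
          (MvPolynomial.pderiv s (F (e t)))).submatrix id (Equiv.swap 0 t0) := rfl
    change (Matrix.of fun s t => MvPolynomial.eval p (MvPolynomial.pderiv s
        (F ((e ∘ Equiv.swap 0 t0) t)))).det ≠ 0
    rw [h2, Matrix.det_permute']
    refine mul_ne_zero ?_ hp1
    rcases Int.units_eq_one_or (Equiv.Perm.sign (Equiv.swap 0 t0)) with h | h <;> rw [h] <;> simp
  · change MvPolynomial.eval p (F ((e ∘ Equiv.swap 0 t0) 0)) ≠ 0
    rw [Function.comp_apply, Equiv.swap_apply_left]
    exact ht0

end Gen

end Pool.Agent.NH97.MM
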