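import Pool.Agent.NH97.MM.Stm
import Pool.Agent.W574.SM.Chain

/-!
# MM-SUB: formal changes of the coordinates (by helper80)
-/

set_option autoImplicit false

namespace Pool.Agent.NH97.MM

open MvPowerSeries

namespace SUBx

variable {σ ι : Type} [Fintype σ] [DecidableEq σ] [Fintype ι] [DecidableEq ι]

theorem fv_sum {κ : Type} (g : ι → MvPowerSeries σ ℂ) (a : ℤ) (S : Finset κ) (F : κ → PF σ ι)
    (h : ∀ k, FV g a (F k)) : FV g a (fun s => ∑ k ∈ S, F k s) := by
  classical
  induction S using Finset.induction_on with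
  | empty =>
    simp only [Finset.sum_empty]
    exact FV.zero a
  | insert k S hk ih =>
    simp only [Finset.sum_insert hk]
    exact FV.add a _ _ (h k) ih

variable {η : σ → MvPowerSeries σ ℂ}

theorem inverse_chain (hη : HasSubst η)
    (hdet : constantCoeff (Matrix.of fun s t => pderiv ℂ s (η t)).det ≠ 0) :
    ∃ N : σ → σ → MvPowerSeries σ ℂ, ∀ (F : MvPowerSeries σ ℂ) (i : σ),
      subst η (pderiv ℂ i F) = ∑ t, N i t * pderiv ℂ t (subst η F) := by
  set M : Matrix σ σ (MvPowerSeries σ ℂ) := Matrix.of fun s t => pderiv ℂ s (η t) with hM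
  have hu : IsUnit M.det := by
    rw [MvPowerSeries.isUnit_iff_constantCoeff]
    exact isUnit_iff_ne_zero.2 hdet
  have hNM : M⁻¹ * M = 1 := Matrix.nonsing_inv_mul _ hu
  refine ⟨fun i t => M⁻¹ i t, fun F i => ?_⟩
  have h1 : ∀ t, pderiv ℂ t (subst η F) = (M.mulVec fun s => subst η (pderiv ℂ s F)) t := by
    intro t
    rw [Pool.Agent.W574.SM.pderiv_subst hη]
    refine Finset.sum_congr rfl fun s _ => ?_
    rw [mul_comm]
    rfl
  simp only [h1]
  have h2 : (M⁻¹).mulVec (M.mulVec fun s => subst η (pderiv ℂ s F)) =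
      fun s => subst η (pderiv ℂ s F) := by
    rw [Matrix.mulVec_mulVec, hNM, Matrix.one_mulVec]
  exact (congrFun h2 i).symm

theorem fv_subst (hη : HasSubst η)
    (hdet : constantCoeff (Matrix.of fun s t => pderiv ℂ s (η t)).det ≠ 0)
    (f : ι → MvPowerSeries σ ℂ) (a : ℤ) (F : PF σ ι) (h : FV f a F) :
    FV (fun j => subst η (f j)) a (fun s => subst η (F s)) := by
  obtain ⟨N, hN⟩ := inverse_chain hη hdet
  induction h with
  | base =>
    have e : (fun s : ι → ℕ => subst η (∏ j, f j ^ s j)) =
        fun s => ∏ j, (subst η (f j)) ^ s j := by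
      funext s
      rw [← coe_substAlgHom hη, map_prod]
      simp only [map_pow]
    rw [e]
    exact FV.base
  | zero a =>
    have e : (fun _ : ι → ℕ => subst η (0 : MvPowerSeries σ ℂ)) =
        fun _ => (0 : MvPowerSeries σ ℂ) := by
      funext s
      rw [← coe_substAlgHom hη, map_zero]
    rw [e]
    exact FV.zero a
  | add a F G _ _ ihF ihG =>
    have e : (fun s : ι → ℕ => subst η (F s + G s)) =
        fun s => subst η (F s) + subst η (G s) := by
      funext s
      rw [subst_add hη]
    rw [e]
    exact FV.add a _ _ ihF ihG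
  | mul a F r _ ih =>
    have e : (fun s : ι → ℕ => subst η (r * F s)) = fun s => subst η r * subst η (F s) := by
      funext s
      rw [subst_mul hη]
    rw [e]
    exact FV.mul a _ _ ih
  | der a F i _ ih =>
    have e : (fun s : ι → ℕ => subst η (pderiv ℂ i (F s))) =
        fun s => ∑ t, N i t * pderiv ℂ t (subst η (F s)) := by
      funext s
      exact hN (F s) i
    rw [e]
    exact fv_sum _ a Finset.univ (fun t s => N i t * pderiv ℂ t (subst η (F s)))
      (fun t => FV.mul a _ _ (FV.der a _ t ih))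
  | up a F j _ ih =>
    exact FV.up a (fun s => subst η (F s)) j ih
  | down a F j _ ih =>
    have e : (fun s : ι → ℕ => subst η ((s j : MvPowerSeries σ ℂ) * F (dec s j))) =
        fun s => (s j : MvPowerSeries σ ℂ) * subst η (F (dec s j)) := by
      funext s
      rw [subst_mul hη]
      congr 1
      rw [← coe_substAlgHom hη, map_natCast]
    rw [e]
    exact FV.down a (fun s => subst η (F s)) j ih

end SUBx

open SUBx in
theorem t_SUB : S_SUB := by
  intro σ ι _ _ _ _ η h0 hdet f b h
  have hη : HasSubst η := hasSubst_of_constantCoeff_zero h0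
  have h1 := fv_subst hη hdet f 1 _ h
  have e : (fun s : ι → ℕ => subst η (C (b.eval ((∑ j, s j : ℕ) : ℂ)) * ∏ j, f j ^ s j)) =
      fun s => C (b.eval ((∑ j, s j : ℕ) : ℂ)) * ∏ j, (subst η (f j)) ^ s j := by
    funext s
    rw [subst_mul hη]
    congr 1
    · rw [← coe_substAlgHom hη]
      exact (substAlgHom hη).commutes _
    · rw [← coe_substAlgHom hη, map_prod]
      simp only [map_pow]
  rw [e] at h1
  exact h1

end Pool.Agent.NH97.MM
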