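import Pool.Agent.H628R4.TP.Defs

set_option autoImplicit false

/-! # Functional equations of ideals of power series: statements

`FV f a` is the step `a` of the filtration by the exponents: the functions
`s ↦ ∑ P(s) ∏ binom(s_j, -c_j) ∏ f_j ^ (s_j + c_j)`, `∑ c_j = a`, with formal differential operators;
here it is defined inductively. `FE f b`: the polynomial `b` satisfies a functional equation of
Budur, Mustata and Saito for the family `f` of power series. It depends only on the ideal generated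
by the family, and it is preserved by formal changes of the coordinates. -/

namespace Pool.Agent.NH97.MM

open MvPolynomial

/-- functions of the exponents with power series values -/
abbrev PF (σ ι : Type) : Type := (ι → ℕ) → MvPowerSeries σ ℂ

section

variable {σ ι : Type} [DecidableEq ι]

/-- `s + e_j` -/
def inc (s : ι → ℕ) (j : ι) : ι → ℕ := Function.update s j (s j + 1)

/-- `s - e_j` (truncated) -/
def dec (s : ι → ℕ) (j : ι) : ι → ℕ := Function.update s j (s j - 1)

/-- the steps of the filtration: it contains `s ↦ ∏ f_j ^ s_j` in degree `0`, and is closed under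
sums, multiplication by power series, derivatives, `F ↦ F(s + e_j)` (degree `+ 1`) and
`F ↦ s_j F(s - e_j)` (degree `- 1`) -/
inductive FV [Fintype ι] (f : ι → MvPowerSeries σ ℂ) : ℤ → PF σ ι → Prop
  | base : FV f 0 (fun s => ∏ j, f j ^ s j)
  | zero (a : ℤ) : FV f a (fun _ => 0)
  | add (a : ℤ) (F G : PF σ ι) : FV f a F → FV f a G → FV f a (fun s => F s + G s)
  | mul (a : ℤ) (F : PF σ ι) (r : MvPowerSeries σ ℂ) : FV f a F → FV f a (fun s => r * F s)
  | der (a : ℤ) (F : PF σ ι) (i : σ) : FV f a F →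
      FV f a (fun s => MvPowerSeries.pderiv ℂ i (F s))
  | up (a : ℤ) (F : PF σ ι) (j : ι) : FV f a F → FV f (a + 1) (fun s => F (inc s j))
  | down (a : ℤ) (F : PF σ ι) (j : ι) : FV f a F →
      FV f (a - 1) (fun s => (s j : MvPowerSeries σ ℂ) * F (dec s j))

/-- the functional equation with the polynomial `b` -/
def FE [Fintype ι] (f : ι → MvPowerSeries σ ℂ) (b : Polynomial ℂ) : Prop :=
  FV f 1 (fun s => MvPowerSeries.C (b.eval ((∑ j, s j : ℕ) : ℂ)) * ∏ j, f j ^ s j)

/-- the family `f` with one more member -/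
def ext (f : ι → MvPowerSeries σ ℂ) (h : MvPowerSeries σ ℂ) : Option ι → MvPowerSeries σ ℂ :=
  fun o => o.elim h f

end

/-- the same body as `Pool.Agent.Y229.IsLocalBI` -/
def LB {σ ι : Type} [Fintype ι] (f : ι → MvPolynomial σ ℂ) (b : Polynomial ℂ) : Prop :=
  ∃ (L : ℕ) (c : Fin L → ι → ℤ) (q : Fin L → MvPolynomial ι ℂ)
    (a : Fin L → MvPowerSeries σ ℂ) (Q : Fin L → Pool.Agent.H628R4.TP.weylS σ),
    (∀ l, ∑ j, c l j = 1) ∧
    ∀ s : ι → ℕ,
      MvPowerSeries.C (b.eval ((∑ j, s j : ℕ) : ℂ)) *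
          ((∏ j, f j ^ s j : MvPolynomial σ ℂ) : MvPowerSeries σ ℂ) =
        ∑ l, MvPowerSeries.C (eval (fun j => (s j : ℂ)) (q l) *
            ∏ j, ((s j).choose (-(c l j)).toNat : ℂ)) *
          (a l * (((Q l : Module.End ℂ (MvPolynomial σ ℂ))
            (∏ j, f j ^ ((s j : ℤ) + c l j).toNat) : MvPolynomial σ ℂ) : MvPowerSeries σ ℂ))

/-- MM-T1: from the explicit equation to `FE` -/
def S_T1 : Prop := ∀ (σ ι : Type) [Finite σ] [Fintype ι] [DecidableEq ι]
  (f : ι → MvPolynomial σ ℂ) (b : Polynomial ℂ), LB f b →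
    FE (fun j => (f j : MvPowerSeries σ ℂ)) b

/-- MM-T2: from `FE` to the explicit equation -/
def S_T2 : Prop := ∀ (σ ι : Type) [Finite σ] [Fintype ι] [DecidableEq ι]
  (f : ι → MvPolynomial σ ℂ) (b : Polynomial ℂ),
    FE (fun j => (f j : MvPowerSeries σ ℂ)) b → LB f b

/-- MM-ADD: a redundant generator may be added -/
def S_ADD : Prop := ∀ (σ ι : Type) [Finite σ] [Fintype ι] [DecidableEq ι]
  (f : ι → MvPowerSeries σ ℂ) (h : MvPowerSeries σ ℂ) (u : ι → MvPowerSeries σ ℂ),
    h = ∑ j, u j * f j → ∀ b : Polynomial ℂ, FE f b → FE (ext f h) b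

/-- MM-DRP: a redundant generator may be removed -/
def S_DRP : Prop := ∀ (σ ι : Type) [Finite σ] [Fintype ι] [DecidableEq ι]
  (f : ι → MvPowerSeries σ ℂ) (h : MvPowerSeries σ ℂ) (u : ι → MvPowerSeries σ ℂ),
    h = ∑ j, u j * f j → ∀ b : Polynomial ℂ, FE (ext f h) b → FE f b

/-- MM-EQV: the generators may be indexed differently -/
def S_EQV : Prop := ∀ (σ ι κ : Type) [Finite σ] [Fintype ι] [DecidableEq ι] [Fintype κ]
  [DecidableEq κ] (e : ι ≃ κ) (f : κ → MvPowerSeries σ ℂ) (b : Polynomial ℂ),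
    FE (fun j => f (e j)) b → FE f b

/-- MM-SAM: the functional equations depend only on the ideal (from ADD, DRP, EQV) -/
def S_SAM : Prop := ∀ (σ ι κ : Type) [Finite σ] [Fintype ι] [DecidableEq ι] [Fintype κ]
  [DecidableEq κ] (f : ι → MvPowerSeries σ ℂ) (g : κ → MvPowerSeries σ ℂ),
    Ideal.span (Set.range f) = Ideal.span (Set.range g) → ∀ b : Polynomial ℂ, FE f b → FE g b

/-- MM-SUB: formal changes of the coordinates -/
def S_SUB : Prop := ∀ (σ ι : Type) [Fintype σ] [DecidableEq σ] [Fintype ι] [DecidableEq ι]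
  (η : σ → MvPowerSeries σ ℂ), (∀ i, MvPowerSeries.constantCoeff (η i) = 0) →
    MvPowerSeries.constantCoeff
      (Matrix.of fun s t => MvPowerSeries.pderiv ℂ s (η t)).det ≠ 0 →
    ∀ (f : ι → MvPowerSeries σ ℂ) (b : Polynomial ℂ), FE f b →
      FE (fun j => MvPowerSeries.subst η (f j)) b

end Pool.Agent.NH97.MM
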